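import Pool.Agent.H98.MF.L.Defs
import Pool.Agent.H67.MU.Defs
import Pool.Agent.H98.ML.FDefs

/-!
# Project MK4, block D: exponents of relative discriminants
-/

set_option autoImplicit false

open scoped BigOperators Pointwise
open NumberField IsDedekindDomain

namespace Pool.Agent.H98.MF

open Pool.Agent.H67.MU (vexp)
open Pool.Agent.H98.ML (norb)

section

variable {k : Type} [Field k] [NumberField k]

/-- the exponent of `P` in the relative discriminant of `F/k` -/
noncomputable def rex (P : HeightOneSpectrum (𝓞 k)) (F : Type) [Field F] [NumberField F]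
    [Algebra k F] : ℕ :=
  vexp P.asIdeal (Ideal.relNorm (𝓞 k) (differentIdeal (𝓞 k) (𝓞 F)))

open Classical in
/-- the exponent of `P` in the relative discriminant of a subfield of `Om k` -/
noncomputable def rexp (P : HeightOneSpectrum (𝓞 k)) (K : IntermediateField k (Om k)) : ℕ :=
  if h : NumberField K then @rex k _ _ P K _ h _ else 0

/-- the properties of a universal tame generator and Frobenius at `P` -/
structure IsTauK (P : HeightOneSpectrum (𝓞 k)) (τ φ : Gm k) : Prop where
  decτ : τ ∈ Dec P
  decφ : φ ∈ Dec P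
  rel : ∀ U : Subgroup (Gm k), U.Normal → IsOpen (U : Set (Gm k)) → (∃ j, U.index = 2 ^ j) →
    φ * τ * φ⁻¹ * (τ ^ Ideal.absNorm P.asIdeal)⁻¹ ∈ U
  disc : ∀ U : Subgroup (Gm k), U.Normal → IsOpen (U : Set (Gm k)) → (∃ j, U.index = 2 ^ j) →
    ∀ W : Subgroup (Gm k), U ≤ W → rexp P (fld k W) + norb W τ = W.index
  chi0 : ∀ a : k, a ≠ 0 → Even (ord P a) → chi a τ = 0 ∧ chi a φ = qr a P
  chi1 : ∀ a : k, Odd (ord P a) → chi a τ = 1

end

end Pool.Agent.H98.MF
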