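import Pool.Agent.H98.MF.D.Defs
import Pool.Agent.H98.MF.L.Top
import Pool.Agent.H67.MU.Disc

/-!
# Project MK4, block D: the norm of the relative discriminant (helper33)
-/

set_option autoImplicit false

open scoped BigOperators Pointwise
open NumberField IsDedekindDomain

namespace Pool.Agent.H98.MF

open Pool.Agent.H67.MU
open Pool.Agent.H98.ML (norb)

section

variable {k : Type} [Field k] [NumberField k]

theorem rexp_eq (P : HeightOneSpectrum (𝓞 k)) (K : IntermediateField k (Om k)) [h : NumberField K] :
    rexp P K = rex P K := by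
  unfold rexp
  rw [dif_pos h]

/-- the primes dividing a nonzero ideal -/
theorem rdn_finite {I : Ideal (𝓞 k)} (_hI : I ≠ ⊥) :
    {P : HeightOneSpectrum (𝓞 k) | vexp P.asIdeal I ≠ 0}.Finite := by
  classical
  refine Set.Finite.of_finite_image (f := fun P : HeightOneSpectrum (𝓞 k) => P.asIdeal) ?_ ?_
  · refine Set.Finite.subset (Finset.finite_toSet
      (UniqueFactorizationMonoid.normalizedFactors I).toFinset) ?_
    rintro _ ⟨P, hP, rfl⟩
    have h1 : vexp P.asIdeal I ≠ 0 := hP
    rw [Finset.mem_coe, Multiset.mem_toFinset]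
    unfold vexp at h1
    rw [Multiset.count_ne_zero] at h1
    exact h1
  · intro P _ P' _ h
    exact HeightOneSpectrum.ext h

theorem rdn_prod {I : Ideal (𝓞 k)} (hI : I ≠ ⊥) : Ideal.absNorm I =
    ∏ᶠ P : HeightOneSpectrum (𝓞 k), Ideal.absNorm P.asIdeal ^ vexp P.asIdeal I := by
  classical
  have hfin := rdn_finite hI
  have h1 : Ideal.absNorm I =
      ((UniqueFactorizationMonoid.normalizedFactors I).map Ideal.absNorm).prod := by
    conv_lhs => rw [← Ideal.prod_normalizedFactors_eq_self hI]
    rw [map_multiset_prod]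
  rw [h1, Finset.prod_multiset_map_count]
  rw [finprod_eq_prod_of_mulSupport_subset (s := hfin.toFinset)]
  · symm
    refine Finset.prod_bij (fun P _ => P.asIdeal) (fun P hP => ?_) (fun P _ P' _ h => ?_)
      (fun Q hQ => ?_) (fun P _ => ?_)
    · have h2 : vexp P.asIdeal I ≠ 0 := (Set.Finite.mem_toFinset hfin).1 hP
      rw [Multiset.mem_toFinset]
      unfold vexp at h2
      rw [Multiset.count_ne_zero] at h2
      exact h2
    · exact HeightOneSpectrum.ext h
    · have h3 := Multiset.mem_toFinset.1 hQ
      have h4 := UniqueFactorizationMonoid.prime_of_normalized_factor Q h3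
      refine ⟨⟨Q, Ideal.isPrime_of_prime h4, h4.ne_zero⟩, ?_, rfl⟩
      rw [Set.Finite.mem_toFinset]
      show vexp Q I ≠ 0
      unfold vexp
      rw [Multiset.count_ne_zero]
      exact h3
    · unfold vexp
      congr!
  · intro P hP
    rw [Finset.mem_coe, Set.Finite.mem_toFinset]
    intro h5
    apply hP
    show Ideal.absNorm P.asIdeal ^ vexp P.asIdeal I = 1
    rw [h5, pow_zero]

theorem rexp_finite (K : IntermediateField k (Om k)) :
    {P : HeightOneSpectrum (𝓞 k) | rexp P K ≠ 0}.Finite := by
  by_cases h : NumberField K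
  · have h1 := rdn_finite (relDisc_ne_bot k K)
    refine h1.subset fun P hP => ?_
    have h2 : rexp P K ≠ 0 := hP
    rw [rexp_eq P K] at h2
    exact h2
  · refine Set.Finite.subset Set.finite_empty fun P hP => ?_
    apply hP
    unfold rexp
    rw [dif_neg h]

/-- the relation between the discriminants -/
theorem rdN_natAbs (K : IntermediateField k (Om k)) [h : NumberField K] :
    rdN K = Ideal.absNorm (relDisc k K) ∧
      (discr K).natAbs = (discr k).natAbs ^ Module.finrank k K * rdN K := by
  have h1 : rdN K = Ideal.absNorm (relDisc k K) := by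
    unfold rdN
    rw [dif_pos h, natAbs_discr k K]
    exact Nat.mul_div_cancel _ (pow_pos (Int.natAbs_pos.2 (discr_ne_zero k)) _)
  refine ⟨h1, ?_⟩
  rw [h1, natAbs_discr k K, mul_comm]

theorem rdN_eq (K : IntermediateField k (Om k)) [FiniteDimensional k K] :
    rdN K = ∏ᶠ P : HeightOneSpectrum (𝓞 k), Ideal.absNorm P.asIdeal ^ rexp P K := by
  have h := nf_of_fd K
  rw [(rdN_natAbs K).1, rdn_prod (relDisc_ne_bot k K)]
  refine finprod_congr fun P => ?_
  rw [rexp_eq P K]
  rfl

theorem rdN_ne_zero (K : IntermediateField k (Om k)) [FiniteDimensional k K] : rdN K ≠ 0 := by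
  have h := nf_of_fd K
  rw [(rdN_natAbs K).1, Ne, Ideal.absNorm_eq_zero_iff]
  exact relDisc_ne_bot k K

end

end Pool.Agent.H98.MF
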