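import Pool.Agent.H98.MF.D.Sub
import Pool.Agent.H98.MF.D.RdN
import Pool.Agent.H98.MF.L.Top
import Pool.Agent.H98.MF.L.Fld

/-!
# Project MK4, block D: the exponent at `P` depends only on the restriction to the decomposition
group (helper33)
-/

set_option autoImplicit false

open scoped BigOperators Pointwise
open NumberField IsDedekindDomain

namespace Pool.Agent.H98.MF

open Pool.Agent.H67.MU
open Pool.Agent.H98.MK
open Pool.Agent.H98.ML (norb)

section

variable {k : Type} [Field k] [NumberField k]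

/-- invariance under isomorphisms -/
theorem rex_congr (P : HeightOneSpectrum (𝓞 k)) {F F' : Type} [Field F] [NumberField F]
    [Algebra k F] [Field F'] [NumberField F'] [Algebra k F'] (e : F ≃ₐ[k] F') :
    rex P F = rex P F' := by
  let _ : Algebra F F' := e.toRingEquiv.toRingHom.toAlgebra
  have hmap : ∀ x : F, algebraMap F F' x = e x := fun _ => rfl
  have hst : IsScalarTower k F F' := IsScalarTower.of_algebraMap_eq fun x => by
    rw [hmap, e.commutes]
  have hfin : Module.finrank F F' = 1 := by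
    let f : F ≃ₗ[F] F' :=
      { toFun := e
        invFun := e.symm
        left_inv := e.symm_apply_apply
        right_inv := e.apply_symm_apply
        map_add' := map_add e
        map_smul' := fun a b => by
          rw [RingHom.id_apply, Algebra.smul_def a (e b), hmap, smul_eq_mul, map_mul] }
    rw [← f.finrank_eq, Module.finrank_self]
  have h1 : differentIdeal (𝓞 k) (𝓞 F) ≠ ⊥ := differentIdeal_ne_bot
  have h2 : differentIdeal (𝓞 F) (𝓞 F') ≠ ⊥ := differentIdeal_ne_bot
  have h3 : (differentIdeal (𝓞 k) (𝓞 F)).map (algebraMap (𝓞 F) (𝓞 F')) ≠ ⊥ :=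
    Ideal.map_ne_bot_of_ne_bot h1
  have h4 : Module.finrank (𝓞 F) (𝓞 F') = 1 := by
    rw [← hfin]
    exact (IsFractionRing.finrank_eq (𝓞 F) F (𝓞 F') F').symm
  have h5 : Ideal.relNorm (𝓞 k) ((differentIdeal (𝓞 k) (𝓞 F)).map
      (algebraMap (𝓞 F) (𝓞 F'))) = Ideal.relNorm (𝓞 k) (differentIdeal (𝓞 k) (𝓞 F)) := by
    rw [← Ideal.relNorm_relNorm (𝓞 k) (𝓞 F), Ideal.relNorm_algebraMap (𝓞 F'), h4, pow_one]
  have h6 : differentIdeal (𝓞 F) (𝓞 F') = ⊤ := by
    have h7 := natAbs_discr_eq_absNorm_differentIdeal_mul_natAbs_discr_pow F (𝓞 F) F' (𝓞 F')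
    have h8 : discr F = discr F' := discr_eq_discr_of_ringEquiv F e.toRingEquiv
    rw [hfin, pow_one, ← h8] at h7
    have h9 : 0 < (discr F).natAbs := Int.natAbs_pos.2 (discr_ne_zero F)
    have h10 : Ideal.absNorm (differentIdeal (𝓞 F) (𝓞 F')) = 1 :=
      (Nat.eq_of_mul_eq_mul_right h9 (by rw [one_mul]; exact h7)).symm
    exact Ideal.absNorm_eq_one_iff.1 h10
  unfold rex
  rw [differentIdeal_eq_differentIdeal_mul_differentIdeal (𝓞 k) (𝓞 F) (𝓞 F'), map_mul, h6, h5,
    Ideal.relNorm_top, Ideal.top_mul]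

theorem rexp_congr (P : HeightOneSpectrum (𝓞 k)) (K : IntermediateField k (Om k)) {F : Type}
    [Field F] [NumberField F] [Algebra k F] (e : F ≃ₐ[k] K) : rexp P K = rex P F := by
  have h1 : FiniteDimensional k F := by
    exact Module.Finite.of_restrictScalars_finite ℚ k F
  have h2 : FiniteDimensional k K := LinearEquiv.finiteDimensional e.toLinearEquiv
  have h3 := nf_of_fd K
  rw [rexp_eq P K, rex_congr P e]

/-- a subfield of the fixed field of `U` -/
theorem rexp_sub (P : HeightOneSpectrum (𝓞 k)) (U : Subgroup (Gm k))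
    [NumberField (fld k U)] {W : Subgroup (Gm k)}
    (F : IntermediateField k (fld k U))
    (hF : ∀ x : fld k U, x ∈ F ↔ ∀ σ ∈ W, σ (x : Om k) = x) (hUW : U ≤ W) :
    rexp P (fld k W) = rex P F := by
  have h1 : F.map (fld k U).val = fld k W := by
    ext x
    rw [IntermediateField.mem_map, IntermediateField.mem_fixedField_iff]
    constructor
    · rintro ⟨y, hy, rfl⟩
      exact (hF y).1 hy
    · intro hx
      have hxU : x ∈ fld k U :=
        (IntermediateField.mem_fixedField_iff U x).2 fun f hf => hx f (hUW hf)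
      exact ⟨⟨x, hxU⟩, (hF ⟨x, hxU⟩).2 hx, rfl⟩
  rw [← h1]
  exact rexp_congr P _ (IntermediateField.equivMap F (fld k U).val)

theorem rexp_dec (P : HeightOneSpectrum (𝓞 k)) {Γ : Type} [Group Γ] [Finite Γ] (H : Subgroup Γ)
    (ρ ρ' : Gm k →* Γ) (ho : IsOpen (ρ.ker : Set (Gm k))) (ho' : IsOpen (ρ'.ker : Set (Gm k)))
    (hρ : Function.Surjective ρ) (hρ' : Function.Surjective ρ') (c : Γ)
    (h : ∀ σ ∈ Dec P, ρ σ = c * ρ' σ * c⁻¹) :
    rexp P (fld k (H.comap ρ)) = rexp P (fld k (H.comap ρ')) := by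
  classical
  set U : Subgroup (Gm k) := ρ.ker ⊓ ρ'.ker with hUdef
  have hU : IsOpen (U : Set (Gm k)) := by
    rw [hUdef, Subgroup.coe_inf]
    exact ho.inter ho'
  have hUn : U.Normal := inferInstance
  have hnf := fldK_nf U hU
  have hgal := fldK_galois U hU
  have hfd := fldK_finite U hU
  obtain ⟨π, hπ, hker, hres⟩ := exists_resK U hU
  have hle : π.ker ≤ ρ.ker := by
    rw [hker]
    exact inf_le_left
  have hle' : π.ker ≤ ρ'.ker := by
    rw [hker]
    exact inf_le_right
  set r : ((fld k U) ≃ₐ[k] (fld k U)) →* Γ := π.liftOfSurjective hπ ⟨ρ, hle⟩ with hr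
  set r' : ((fld k U) ≃ₐ[k] (fld k U)) →* Γ := π.liftOfSurjective hπ ⟨ρ', hle'⟩ with hr'
  have hrπ : ∀ σ, r (π σ) = ρ σ := fun σ =>
    MonoidHom.liftOfRightInverse_comp_apply π _ (Function.rightInverse_surjInv hπ) ⟨ρ, hle⟩ σ
  have hrπ' : ∀ σ, r' (π σ) = ρ' σ := fun σ =>
    MonoidHom.liftOfRightInverse_comp_apply π _ (Function.rightInverse_surjInv hπ) ⟨ρ', hle'⟩ σ
  have hrs : Function.Surjective r := fun x => by
    obtain ⟨σ, rfl⟩ := hρ x
    exact ⟨π σ, hrπ σ⟩
  have hrs' : Function.Surjective r' := fun x => by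
    obtain ⟨σ, rfl⟩ := hρ' x
    exact ⟨π σ, hrπ' σ⟩
  have hQp : (low P (fld k U)).IsPrime := low_prime P (fld k U)
  have hQ := low_comap P (fld k U)
  have key : ∀ (ρ0 : Gm k →* Γ) (r0 : ((fld k U) ≃ₐ[k] (fld k U)) →* Γ),
      (∀ σ, r0 (π σ) = ρ0 σ) → U ≤ H.comap ρ0 →
      rexp P (fld k (H.comap ρ0)) = rex P (IntermediateField.fixedField (H.comap r0)) := by
    intro ρ0 r0 h0 hU0
    refine rexp_sub P U _ (fun x => ?_) hU0
    rw [IntermediateField.mem_fixedField_iff]
    constructor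
    · intro h1 σ hσ
      have h2 := h1 (π σ) (by
        rw [Subgroup.mem_comap, h0]
        exact hσ)
      rw [← hres σ x, h2]
    · intro h1 s hs
      obtain ⟨σ, rfl⟩ := hπ s
      apply Subtype.ext
      rw [hres σ x]
      refine h1 σ ?_
      rw [Subgroup.mem_comap, ← h0]
      exact hs
  have hk1 := key ρ r hrπ (by
    intro u hu
    rw [Subgroup.mem_comap, (MonoidHom.mem_ker).1 (show u ∈ ρ.ker from hu.1)]
    exact H.one_mem)
  have hk2 := key ρ' r' hrπ' (by
    intro u hu
    rw [Subgroup.mem_comap, (MonoidHom.mem_ker).1 (show u ∈ ρ'.ker from hu.2)]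
    exact H.one_mem)
  rw [hk1, hk2]
  refine rd_compare P (low P (fld k U)) hQ H r r' hrs hrs' _ _
    (IntermediateField.fixingSubgroup_fixedField _) (IntermediateField.fixingSubgroup_fixedField _)
    c ?_
  intro s hs
  have hst : s ∈ MulAction.stabilizer ((fld k U) ≃ₐ[k] (fld k U)) (low P (fld k U)) :=
    Ideal.inertia_le_stabilizer _ hs
  obtain ⟨σ, hσ, hσs⟩ := dec_surj P (fld k U) s hst
  have h3 : π σ = s := by
    rw [← hσs]
    apply AlgEquiv.ext
    intro x
    apply Subtype.ext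
    rw [hres σ x]
    exact (AlgEquiv.restrictNormal_commutes σ (fld k U) x).symm
  rw [← h3, hrπ, hrπ', h σ hσ]

theorem rexp_conj (P : HeightOneSpectrum (𝓞 k)) (W : Subgroup (Gm k)) (g : Gm k) :
    rexp P (fld k (W.map (MulAut.conj g).toMonoidHom)) = rexp P (fld k W) := by
  have h1 : fld k (W.map (MulAut.conj g).toMonoidHom) =
      (fld k W).map (g : Om k →ₐ[k] Om k) := by
    ext x
    rw [IntermediateField.mem_fixedField_iff, IntermediateField.mem_map]
    constructor
    · intro hx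
      refine ⟨g⁻¹ x, ?_, ?_⟩
      · rw [IntermediateField.mem_fixedField_iff]
        intro f hf
        have h2 := hx (g * f * g⁻¹) ⟨f, hf, rfl⟩
        rw [AlgEquiv.mul_apply, AlgEquiv.mul_apply] at h2
        have h3 := congrArg (fun y => g⁻¹ y) h2
        have h4 : ∀ z : Om k, g⁻¹ (g z) = z := fun z => by
          rw [← AlgEquiv.mul_apply, inv_mul_cancel, AlgEquiv.one_apply]
        change g⁻¹ (g (f (g⁻¹ x))) = g⁻¹ x at h3
        rw [h4] at h3
        exact h3
      · show g (g⁻¹ x) = x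
        rw [← AlgEquiv.mul_apply, mul_inv_cancel, AlgEquiv.one_apply]
    · rintro ⟨y, hy, rfl⟩ f ⟨w, hw, rfl⟩
      rw [IntermediateField.mem_fixedField_iff] at hy
      show (g * w * g⁻¹) (g y) = g y
      rw [AlgEquiv.mul_apply, AlgEquiv.mul_apply, ← AlgEquiv.mul_apply g⁻¹ g, inv_mul_cancel,
        AlgEquiv.one_apply, hy w hw]
  rw [h1]
  by_cases hn : NumberField (fld k W)
  · rw [rexp_eq P (fld k W)]
    exact rexp_congr P _ (IntermediateField.equivMap (fld k W) (g : Om k →ₐ[k] Om k))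
  · have hn' : ¬ NumberField ((fld k W).map (g : Om k →ₐ[k] Om k)) := by
      intro h2
      apply hn
      have e := IntermediateField.equivMap (fld k W) (g : Om k →ₐ[k] Om k)
      exact NumberField.of_ringEquiv _ _ e.symm.toRingEquiv
    unfold rexp
    rw [dif_neg hn, dif_neg hn']

end

end Pool.Agent.H98.MF
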