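import Pool.Agent.H98.MF.D.Tau
import Pool.Agent.H98.MF.D.CmpDec
import Pool.Agent.H98.MF.D.RdN
import Pool.Agent.H98.MF.L.Fld
import Pool.Agent.H98.MF.Frm

/-!
# Project MK4, block D: interface (helper33)
-/

set_option autoImplicit false

open scoped BigOperators Pointwise
open NumberField IsDedekindDomain

namespace Pool.Agent.H98.MF

open Pool.Agent.H98.ML (norb)

theorem rd_mul {k : Type} [Field k] [NumberField k] (U : Subgroup (Gm k))
    (hU : IsOpen (U : Set (Gm k))) [NumberField (fld k U)] :
    (discr (fld k U)).natAbs = (discr k).natAbs ^ U.index * rdN (fld k U) := by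
  rw [← fldK_finrank U hU]
  exact (rdN_natAbs (fld k U)).2

open Classical in
/-- a universal tame generator -/
noncomputable def tauK {k : Type} [Field k] [NumberField k] (P : HeightOneSpectrum (𝓞 k)) : Gm k :=
  if h : ∃ τ φ : Gm k, IsTauK P τ φ then h.choose else 1

theorem tauK_spec {k : Type} [Field k] [NumberField k] (P : HeightOneSpectrum (𝓞 k))
    (h2 : ord P (2 : k) = 0) : ∃ φ : Gm k, IsTauK P (tauK P) φ := by
  have h := exists_tauK P h2
  have h1 : tauK P = h.choose := dif_pos h
  rw [h1]
  exact h.choose_spec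

theorem exists_rx (k : Type) [Field k] [NumberField k] : Nonempty (Rx k) := by
  refine ⟨{
    rex := fun P U => rexp P (fld k U)
    tau := tauK
    fin := fun U _ => rexp_finite (fld k U)
    prod := fun U hU => ?_
    loc := fun G _ _ ρ ρ' H hc hc' hs hs' P h => ?_
    disc := fun P h2 U hn hU hj W hUW => ?_
    chi := fun P h2 a => ?_ }⟩
  · have := fldK_finite U hU
    exact rdN_eq (fld k U)
  · refine rexp_dec P H ρ ρ' (ker_openK ρ hc) (ker_openK ρ' hc') hs hs' 1 fun σ hσ => ?_
    rw [h σ hσ, one_mul, inv_one, mul_one]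
  · obtain ⟨φ, hφ⟩ := tauK_spec P h2
    exact hφ.disc U hn hU hj W hUW
  · obtain ⟨φ, hφ⟩ := tauK_spec P h2
    rcases Int.even_or_odd (ord P (a : k)) with he | ho
    · rw [(hφ.chi0 (a : k) a.ne_zero he).1]
      exact ((ZMod.intCast_eq_zero_iff_even).2 he).symm
    · rw [hφ.chi1 (a : k) ho]
      exact ((ZMod.intCast_eq_one_iff_odd).2 ho).symm

end Pool.Agent.H98.MF
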