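import Pool.Agent.H98.MF.D.Sub

/-!
# Project MK4, block D: the different exponent at a tame prime of a relative Galois extension
-/

set_option autoImplicit false

open scoped BigOperators Pointwise
open NumberField IsDedekindDomain

namespace Pool.Agent.H98.MF

open Pool.Agent.H67.MU

section

variable {F M : Type} [Field F] [Field M] [Algebra F M]

/-- The residue character. -/
private noncomputable def orbChar (Q : Ideal (𝓞 M)) (σ : M ≃ₐ[F] M) : 𝓞 M →* (𝓞 M ⧸ Q) :=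
  (Ideal.Quotient.mk Q : 𝓞 M →* 𝓞 M ⧸ Q).comp
    (MulSemiringAction.toRingHom (M ≃ₐ[F] M) (𝓞 M) σ : 𝓞 M →* 𝓞 M)

private theorem orbChar_apply (Q : Ideal (𝓞 M)) (σ : M ≃ₐ[F] M) (x : 𝓞 M) :
    orbChar Q σ x = Ideal.Quotient.mk Q (σ • x) := rfl

/-- If the order of the inertia group is not in `Q` then some sum over the decomposition group
is not in `Q`. -/
private theorem orb_sum_not_mem (Q : Ideal (𝓞 M)) [Q.IsPrime]
    (ht : ((Nat.card (Q.inertia (M ≃ₐ[F] M)) : ℕ) : 𝓞 M) ∉ Q)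
    (D : Finset (M ≃ₐ[F] M)) (hD : ∀ σ, σ ∈ D ↔ σ • Q = Q) :
    ∃ y : 𝓞 M, ∑ σ ∈ D, σ • y ∉ Q := by
  classical
  by_contra hcon
  push Not at hcon
  have h1 : ∀ y : 𝓞 M, ∑ σ ∈ D, orbChar Q σ y = 0 := by
    intro y
    simp only [orbChar_apply]
    rw [← map_sum]
    exact Ideal.Quotient.eq_zero_iff_mem.mpr (hcon y)
  have h2 : ∑ b ∈ D.image (orbChar Q), ((Finset.card {a ∈ D | orbChar Q a = b} : ℕ) : 𝓞 M ⧸ Q) •
      (b : 𝓞 M → 𝓞 M ⧸ Q) = 0 := by
    funext y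
    have h3 := h1 y
    rw [Finset.sum_comp (fun b : 𝓞 M →* 𝓞 M ⧸ Q => b y) (orbChar Q)] at h3
    rw [Finset.sum_apply]
    simpa [nsmul_eq_mul] using h3
  have h4 := linearIndependent_iff'.mp (linearIndependent_monoidHom (𝓞 M) (𝓞 M ⧸ Q))
    (D.image (orbChar Q)) (fun b => ((Finset.card {a ∈ D | orbChar Q a = b} : ℕ) : 𝓞 M ⧸ Q)) h2
    (orbChar Q (1 : M ≃ₐ[F] M)) (Finset.mem_image_of_mem _ ((hD 1).mpr (one_smul _ _)))
  have h5 : Finset.card {a ∈ D | orbChar Q a = orbChar Q (1 : M ≃ₐ[F] M)} =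
      Nat.card (Q.inertia (M ≃ₐ[F] M)) := by
    rw [← Nat.card_eq_finsetCard]
    apply Nat.card_congr
    refine Equiv.subtypeEquivRight fun σ => ?_
    rw [Finset.mem_filter, hD]
    constructor
    · rintro ⟨_, h⟩ x
      have h6 := DFunLike.congr_fun h x
      rw [orbChar_apply, orbChar_apply, one_smul] at h6
      exact Ideal.Quotient.eq.mp h6
    · intro h
      refine ⟨?_, ?_⟩
      · exact MulAction.mem_stabilizer_iff.mp (Ideal.inertia_le_stabilizer Q h)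
      · ext x
        rw [orbChar_apply, orbChar_apply, one_smul]
        exact Ideal.Quotient.eq.mpr (h x)
  rw [h5] at h4
  apply ht
  apply Ideal.Quotient.eq_zero_iff_mem.mp
  rw [map_natCast]
  exact h4

end

section

variable {F M : Type} [Field F] [NumberField F] [Field M] [NumberField M] [Algebra F M]
  [IsGalois F M]

private theorem orb_intTrace (x : 𝓞 M) :
    algebraMap (𝓞 F) (𝓞 M) (Algebra.intTrace (𝓞 F) (𝓞 M) x) = ∑ σ : M ≃ₐ[F] M, σ • x := by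
  apply FaithfulSMul.algebraMap_injective (𝓞 M) M
  rw [← IsScalarTower.algebraMap_apply, IsScalarTower.algebraMap_apply (𝓞 F) F M,
    Algebra.algebraMap_intTrace (A := 𝓞 F) (K := F) (L := M) (B := 𝓞 M),
    trace_eq_sum_automorphisms, map_sum]
  rfl

theorem orb_tame (Q : Ideal (𝓞 M)) [Q.IsPrime] (hQ : Q ≠ ⊥)
    (ht : ((Nat.card (Q.inertia (M ≃ₐ[F] M)) : ℕ) : 𝓞 M) ∉ Q) :
    vexp Q (differentIdeal (𝓞 F) (𝓞 M)) + 1 = Nat.card (Q.inertia (M ≃ₐ[F] M)) := by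
  classical
  have hp0 : Q.under (𝓞 F) ≠ ⊥ := Ideal.under_ne_bot (𝓞 F) hQ
  have hmax : (Q.under (𝓞 F)).IsMaximal := Ideal.IsPrime.isMaximal inferInstance hp0
  have hQmax : Q.IsMaximal := Ring.DimensionLEOne.maximalOfPrime hQ inferInstance
  have hD : differentIdeal (𝓞 F) (𝓞 M) ≠ ⊥ := differentIdeal_ne_bot
  have hmap : (Q.under (𝓞 F)).map (algebraMap (𝓞 F) (𝓞 M)) ≠ ⊥ :=
    Ideal.map_ne_bot_of_ne_bot hp0
  obtain ⟨R, hR1, hR2⟩ := Ideal.eq_prime_pow_mul_coprime hmap Q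
  set e := Nat.card (Q.inertia (M ≃ₐ[F] M)) with he
  have he' : e = Multiset.count Q (UniqueFactorizationMonoid.normalizedFactors
      ((Q.under (𝓞 F)).map (algebraMap (𝓞 F) (𝓞 M)))) := by
    rw [he, Ideal.card_inertia_eq_ramificationIdxIn (G := M ≃ₐ[F] M) (Q.under (𝓞 F)) Q,
      Ideal.ramificationIdxIn_eq_ramificationIdx (Q.under (𝓞 F)) Q (M ≃ₐ[F] M),
      Ideal.IsDedekindDomain.ramificationIdx_eq_normalizedFactors_count _ Q hmap]
  rw [← he'] at hR2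
  have he0 : 0 < e := Nat.card_pos
  -- lower bound
  have h1 : e - 1 ≤ vexp Q (differentIdeal (𝓞 F) (𝓞 M)) := by
    rw [← mu3_pow_dvd_iff inferInstance hQ hD]
    exact pow_sub_one_dvd_differentIdeal (𝓞 F) Q e hp0 ⟨R, hR2⟩
  -- upper bound
  have h2 : ¬ Q ^ e ∣ differentIdeal (𝓞 F) (𝓞 M) := by
    obtain ⟨y, hy⟩ := orb_sum_not_mem Q ht {σ | σ • Q = Q} (by simp)
    obtain ⟨r, hr, q, hq, hrq⟩ := Submodule.mem_sup.mp
      ((Ideal.eq_top_iff_one _).mp hR1)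
    refine not_dvd_differentIdeal_of_intTrace_not_mem (𝓞 F) (Q ^ e) R hR2.symm (y * q)
      (R.mul_mem_left _ hq) fun hx => hy ?_
    have h3 : ∑ σ : M ≃ₐ[F] M, σ • (y * q) ∈ Q := by
      rw [← orb_intTrace]
      rwa [Ideal.under_def, Ideal.mem_comap] at hx
    rw [← Finset.sum_filter_add_sum_filter_not Finset.univ (fun σ : M ≃ₐ[F] M => σ • Q = Q)] at h3
    have h4 : ∑ σ : M ≃ₐ[F] M with ¬ σ • Q = Q, σ • (y * q) ∈ Q := by
      refine Ideal.sum_mem _ fun σ hσ => ?_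
      rw [Finset.mem_filter] at hσ
      rw [smul_mul']
      refine Q.mul_mem_left _ ?_
      have h5 : (σ⁻¹ • Q).IsPrime := inferInstance
      have h6 : Q ^ e * R ≤ σ⁻¹ • Q := by
        rw [← hR2, Ideal.map_le_iff_le_comap]
        intro a ha
        rw [Ideal.mem_comap, Ideal.mem_inv_pointwise_smul_iff, smul_algebraMap]
        exact ha
      rcases (Ideal.IsPrime.mul_le h5).mp h6 with h7 | h7
      · exfalso
        have h8 : Q ≤ σ⁻¹ • Q := Ideal.IsPrime.le_of_pow_le h7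
        have h9 : Q = σ⁻¹ • Q := hQmax.eq_of_le h5.ne_top h8
        apply hσ.2
        nth_rewrite 1 [h9]
        rw [smul_inv_smul]
      · exact Ideal.mem_inv_pointwise_smul_iff.mp (h7 hq)
    have h5 : ∑ σ : M ≃ₐ[F] M with σ • Q = Q, σ • (y * q) ∈ Q := (Q.add_mem_iff_left h4).mp h3
    have h6 : ∑ σ : M ≃ₐ[F] M with σ • Q = Q, σ • y =
        ∑ σ : M ≃ₐ[F] M with σ • Q = Q, σ • (y * q) +
        ∑ σ : M ≃ₐ[F] M with σ • Q = Q, σ • (y * r) := by
      rw [← Finset.sum_add_distrib]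
      refine Finset.sum_congr rfl fun σ _ => ?_
      rw [← smul_add, ← mul_add, add_comm q r, hrq, mul_one]
    rw [h6]
    refine Q.add_mem h5 (Ideal.sum_mem _ fun σ hσ => ?_)
    rw [Finset.mem_filter] at hσ
    rw [smul_mul']
    refine Q.mul_mem_left _ ?_
    rw [← hσ.2]
    exact Ideal.smul_mem_pointwise_smul _ _ _ hr
  rw [mu3_pow_dvd_iff inferInstance hQ hD] at h2
  omega

end

end Pool.Agent.H98.MF
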