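import Pool.Agent.H98.MF.D.Sub
import Pool.Agent.H98.MF.D.OrbTame
import Pool.Agent.H98.MF.L.Ord
import Pool.Agent.H98.ML.NorbBurnside

/-!
# Project MK4, block D: tame exponents of subfields and orbits of the tame generator
-/

set_option autoImplicit false

open scoped BigOperators Pointwise
open NumberField IsDedekindDomain

namespace Pool.Agent.H98.MF

open Pool.Agent.H67.MU
open Pool.Agent.H98.ML (norb norb_burnside gd_mem_diff)

section

variable {k : Type} [Field k] [NumberField k]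

variable {M : Type} [Field M] [NumberField M] [Algebra k M]

theorem orb_smul_mem (σ : M ≃ₐ[k] M) {x : 𝓞 M} (hx : x ∈ differentIdeal (𝓞 k) (𝓞 M)) :
    σ • x ∈ differentIdeal (𝓞 k) (𝓞 M) := by
  rw [gd_mem_diff] at hx ⊢
  intro y hy
  obtain ⟨z, hz⟩ := hx (σ.symm y) fun b => by
    have h1 := hy (σ • b)
    rw [rd_coe_smul] at h1
    have h2 : Algebra.trace k M (σ.symm (y * σ (b : M))) = Algebra.trace k M (y * σ (b : M)) :=
      Algebra.trace_eq_of_algEquiv σ.symm _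
    rw [map_mul, AlgEquiv.symm_apply_apply] at h2
    rw [h2]
    exact h1
  refine ⟨σ • z, ?_⟩
  rw [rd_coe_smul, rd_coe_smul, ← hz, map_mul, AlgEquiv.apply_symm_apply]

theorem orb_vexp_le (σ : M ≃ₐ[k] M) (Q : Ideal (𝓞 M)) [hQ : Q.IsPrime] (hQ0 : Q ≠ ⊥) :
    vexp Q (differentIdeal (𝓞 k) (𝓞 M)) ≤ vexp (σ • Q) (differentIdeal (𝓞 k) (𝓞 M)) := by
  have hp : (σ • Q).IsPrime := inferInstance
  have hd : differentIdeal (𝓞 k) (𝓞 M) ≠ ⊥ := differentIdeal_ne_bot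
  have h2 : Q ^ vexp Q (differentIdeal (𝓞 k) (𝓞 M)) ∣ differentIdeal (𝓞 k) (𝓞 M) :=
    (mu3_pow_dvd_iff hQ hQ0 hd _).2 le_rfl
  rw [← mu3_pow_dvd_iff hp (rd_smul_ne_bot σ hQ0) hd, Ideal.dvd_iff_le, ← smul_pow']
  intro x hx
  apply Ideal.mem_pointwise_smul_iff_inv_smul_mem.2
  exact Ideal.dvd_iff_le.1 h2 (orb_smul_mem σ⁻¹ hx)

theorem orb_vexp_eq (σ : M ≃ₐ[k] M) (Q : Ideal (𝓞 M)) [hQ : Q.IsPrime] (hQ0 : Q ≠ ⊥) :
    vexp (σ • Q) (differentIdeal (𝓞 k) (𝓞 M)) = vexp Q (differentIdeal (𝓞 k) (𝓞 M)) := by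
  refine le_antisymm ?_ (orb_vexp_le σ Q hQ0)
  have h1 := orb_vexp_le σ⁻¹ (σ • Q) (rd_smul_ne_bot σ hQ0)
  rwa [inv_smul_smul] at h1

/-- two is not in a prime above `P` -/
theorem orb_two (P : HeightOneSpectrum (𝓞 k)) (h2 : ord P (2 : k) = 0) (Q : Ideal (𝓞 M))
    [Q.IsPrime] (hQ : Q.comap (algebraMap (𝓞 k) (𝓞 M)) = P.asIdeal) (n : ℕ)
    (hn : ∃ j, n ∣ 2 ^ j) : (n : 𝓞 M) ∉ Q := by
  obtain ⟨j, hj⟩ := hn
  intro h
  have h3 : (2 : 𝓞 M) ∈ Q := by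
    obtain ⟨m, hm⟩ := hj
    have h4 : (2 : 𝓞 M) ^ j ∈ Q := by
      have h5 : ((2 : 𝓞 M)) ^ j = (n : 𝓞 M) * (m : 𝓞 M) := by
        exact_mod_cast congrArg (Nat.cast : ℕ → 𝓞 M) hm
      rw [h5]
      exact Q.mul_mem_right _ h
    exact Ideal.IsPrime.mem_of_pow_mem inferInstance j h4
  have h6 : (2 : 𝓞 k) ∈ P.asIdeal := by
    rw [← hQ, Ideal.mem_comap, map_ofNat]
    exact h3
  have h7 := (le_ord_iff P (2 : 𝓞 k) 1).2 (by rw [pow_one]; exact h6)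
  rcases h7 with h8 | h8
  · exact two_ne_zero h8
  · have h9 : ((2 : 𝓞 k) : k) = 2 := map_ofNat _ 2
    rw [h9, h2] at h8
    norm_num at h8

variable [IsGalois k M]

theorem rd_tame_sub (j : ℕ) (hj : Module.finrank k M = 2 ^ j) (P : HeightOneSpectrum (𝓞 k))
    (h2 : ord P (2 : k) = 0) (Q : Ideal (𝓞 M)) [Q.IsPrime]
    (hQ : Q.comap (algebraMap (𝓞 k) (𝓞 M)) = P.asIdeal) (J : Subgroup (M ≃ₐ[k] M))
    (hJ : J ≤ Q.inertia (M ≃ₐ[k] M)) :
    vexp Q (differentIdeal (𝓞 (IntermediateField.fixedField J)) (𝓞 M)) + 1 = Nat.card J := by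
  have hQ0 := rd_ne_bot hQ
  have h3 : Q.ramificationIdx (𝓞 (IntermediateField.fixedField J)) = Nat.card J := by
    rw [rd_card, IntermediateField.fixingSubgroup_fixedField, inf_eq_right.2 hJ]
  have h4 : Nat.card (Q.inertia (M ≃ₐ[IntermediateField.fixedField J] M)) =
      Q.ramificationIdx (𝓞 (IntermediateField.fixedField J)) := by
    rw [Ideal.card_inertia_eq_ramificationIdxIn (G := M ≃ₐ[IntermediateField.fixedField J] M)
        (Q.under (𝓞 (IntermediateField.fixedField J))) Q,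
      Ideal.ramificationIdxIn_eq_ramificationIdx
        (Q.under (𝓞 (IntermediateField.fixedField J))) Q (M ≃ₐ[IntermediateField.fixedField J] M)]
  have h5 : Nat.card J ∣ 2 ^ j := by
    have h6 := Subgroup.card_subgroup_dvd_card J
    rwa [IsGalois.card_aut_eq_finrank, hj] at h6
  rw [← h3, ← h4] at h5 ⊢
  exact orb_tame Q hQ0 (orb_two P h2 Q hQ _ ⟨j, h5⟩)

theorem orb_tame_base (j : ℕ) (hj : Module.finrank k M = 2 ^ j) (P : HeightOneSpectrum (𝓞 k))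
    (h2 : ord P (2 : k) = 0) (Q : Ideal (𝓞 M)) [Q.IsPrime]
    (hQ : Q.comap (algebraMap (𝓞 k) (𝓞 M)) = P.asIdeal) :
    vexp Q (differentIdeal (𝓞 k) (𝓞 M)) + 1 = Nat.card (Q.inertia (M ≃ₐ[k] M)) := by
  have h5 : Nat.card (Q.inertia (M ≃ₐ[k] M)) ∣ 2 ^ j := by
    have h6 := Subgroup.card_subgroup_dvd_card (Q.inertia (M ≃ₐ[k] M))
    rwa [IsGalois.card_aut_eq_finrank, hj] at h6
  exact orb_tame Q (rd_ne_bot hQ) (orb_two P h2 Q hQ _ ⟨j, h5⟩)

theorem rd_orb (j : ℕ) (hj : Module.finrank k M = 2 ^ j) (P : HeightOneSpectrum (𝓞 k))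
    (h2 : ord P (2 : k) = 0) (Q : Ideal (𝓞 M)) [Q.IsPrime]
    (hQ : Q.comap (algebraMap (𝓞 k) (𝓞 M)) = P.asIdeal) (τ : M ≃ₐ[k] M)
    (hτ : Subgroup.zpowers τ = Q.inertia (M ≃ₐ[k] M)) (H : Subgroup (M ≃ₐ[k] M)) :
    rex P (IntermediateField.fixedField H) + norb H τ = H.index := by
  have h1 := rd_sub P Q hQ H
  have hcard : Nat.card (M ≃ₐ[k] M) = Module.finrank k M := IsGalois.card_aut_eq_finrank k M
  have hd : rex P M * Nat.card (Q.inertia (M ≃ₐ[k] M)) =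
      Module.finrank k M * vexp Q (differentIdeal (𝓞 k) (𝓞 M)) := by
    have h3 : rex P M * Nat.card (Q.inertia (M ≃ₐ[k] M)) =
        ∑ σ : M ≃ₐ[k] M, vexp (σ • Q) (differentIdeal (𝓞 k) (𝓞 M)) :=
      rd_norm P Q hQ _ differentIdeal_ne_bot
    rw [h3, Finset.sum_congr rfl fun σ _ => orb_vexp_eq σ Q (rd_ne_bot hQ), Finset.sum_const,
      Finset.card_univ, smul_eq_mul, ← Nat.card_eq_fintype_card, hcard]
  have h3 := orb_tame_base j hj P h2 Q hQ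
  have h4 := norb_burnside H τ
  rw [hτ] at h4
  have h5 : ∑ g : M ≃ₐ[k] M, (vexp Q (differentIdeal (𝓞 (IntermediateField.fixedField
        (Q.inertia (M ≃ₐ[k] M) ⊓ H.comap (MulAut.conj g).toMonoidHom))) (𝓞 M)) + 1) =
      ∑ g : M ≃ₐ[k] M, Nat.card (Q.inertia (M ≃ₐ[k] M) ⊓
        H.comap (MulAut.conj g).toMonoidHom : Subgroup (M ≃ₐ[k] M)) :=
    Finset.sum_congr rfl fun g _ => rd_tame_sub j hj P h2 Q hQ _ inf_le_left
  rw [Finset.sum_add_distrib, Finset.sum_const, Finset.card_univ, smul_eq_mul, mul_one,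
    ← Nat.card_eq_fintype_card, hcard, ← h4] at h5
  have h6 : H.index * Nat.card H = Module.finrank k M := by
    rw [Subgroup.index_mul_card, hcard]
  have hI : 0 < Nat.card (Q.inertia (M ≃ₐ[k] M)) := Nat.card_pos
  have hH : 0 < Nat.card H := Nat.card_pos
  refine Nat.eq_of_mul_eq_mul_right (Nat.mul_pos hH hI) ?_
  rw [hd] at h1
  have h7 : Module.finrank k M * vexp Q (differentIdeal (𝓞 k) (𝓞 M)) + Module.finrank k M =
      Module.finrank k M * Nat.card (Q.inertia (M ≃ₐ[k] M)) := by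
    rw [← h3]
    ring
  calc _ = (rex P (IntermediateField.fixedField H) * Nat.card H *
        Nat.card (Q.inertia (M ≃ₐ[k] M))) +
        norb H τ * Nat.card H * Nat.card (Q.inertia (M ≃ₐ[k] M)) := by ring
    _ = Module.finrank k M * Nat.card (Q.inertia (M ≃ₐ[k] M)) := by
        rw [← h7, ← h1, ← h5, add_assoc]
    _ = _ := by rw [← h6]; ring

end

end Pool.Agent.H98.MF
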