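import Pool.Agent.H98.MF.D.Defs
import Pool.Agent.H98.MF.L.Odd

/-! # Project MK4, block D: quadratic elements, inertia and Frobenius over a number field -/

set_option autoImplicit false

open scoped BigOperators Pointwise
open NumberField IsDedekindDomain

namespace Pool.Agent.H98.MF

open Pool.Agent.H67.MU (vexp)
open Pool.Agent.H98.ML (norb)

section

variable {k : Type} [Field k] [NumberField k]

private theorem dq_mem (P : HeightOneSpectrum (𝓞 k)) (b : 𝓞 k) :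
    b ∈ P.asIdeal ↔ (b = 0 ∨ 1 ≤ ord P (b : k)) := by
  have h := le_ord_iff P b 1
  rw [pow_one, Nat.cast_one] at h
  exact h.symm

private theorem dq_ord {P : HeightOneSpectrum (𝓞 k)} {b : 𝓞 k} (h : b ∉ P.asIdeal) :
    (b : k) ≠ 0 ∧ ord P (b : k) = 0 := by
  rw [dq_mem, not_or] at h
  have h1 := ord_int_nonneg P b
  refine ⟨fun h0 => h.1 ?_, by omega⟩
  exact_mod_cast h0

private theorem dq_zpow (P : HeightOneSpectrum (𝓞 k)) (x : k) (m : ℤ) :
    ord P (x ^ m) = m * ord P x := by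
  rcases m with m | m
  · rw [Int.ofNat_eq_natCast, zpow_natCast, ord_pow]
  · rw [zpow_negSucc, ord_inv, ord_pow, Int.negSucc_eq]
    push_cast
    ring

/-- multiplying by a square: an integer with the given parity of the order -/
private theorem dq_norm (P : HeightOneSpectrum (𝓞 k)) {a : k} (ha : a ≠ 0) (m e : ℤ) (he : 0 ≤ e)
    (hm : ord P a = 2 * m + e) :
    ∃ (c : k) (b : 𝓞 k), c ≠ 0 ∧ a * c ^ 2 = (b : k) ∧ ord P (b : k) = e := by
  obtain ⟨π, hπ⟩ := exists_unif P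
  have hπ0 : (π : k) ≠ 0 := by
    intro h
    rw [h, ord_zero] at hπ
    exact zero_ne_one hπ
  have hz : (π : k) ^ (-m) ≠ 0 := zpow_ne_zero _ hπ0
  have h1 : ord P (a * ((π : k) ^ (-m)) ^ 2) = e := by
    rw [ord_mul P ha (pow_ne_zero 2 hz), ord_pow, dq_zpow, hπ, hm]
    push_cast
    ring
  obtain ⟨x, y, hy, hxy⟩ := (ord_nonneg_iff P (a * ((π : k) ^ (-m)) ^ 2)).1 (by rw [h1]; exact he)
  obtain ⟨hy0, hy1⟩ := dq_ord hy
  refine ⟨(π : k) ^ (-m) * (y : k), x * y, mul_ne_zero hz hy0, ?_, ?_⟩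
  · rw [mul_pow, ← mul_assoc, pow_two (y : k), ← mul_assoc, hxy]
    push_cast
    rfl
  · have h2 : ((x * y : 𝓞 k) : k) = (a * ((π : k) ^ (-m)) ^ 2) * (y : k) ^ 2 := by
      rw [pow_two (y : k), ← mul_assoc, hxy]
      push_cast
      rfl
    rw [h2, ord_mul P (mul_ne_zero ha (pow_ne_zero 2 hz)) (pow_ne_zero 2 hy0), h1, ord_pow, hy1]
    ring

private theorem dq_two {P : HeightOneSpectrum (𝓞 k)} (h2 : ord P (2 : k) = 0) :
    (2 : 𝓞 k) ∉ P.asIdeal := by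
  rw [dq_mem]
  rintro (h | h)
  · exact two_ne_zero h
  · have h3 : ((2 : 𝓞 k) : k) = 2 := by
      push_cast
      rfl
    rw [h3, h2] at h
    omega

variable {M : Type} [Field M] [NumberField M] [Algebra k M]

/-- a square root of an algebraic integer is an algebraic integer -/
private theorem dq_int (b : 𝓞 k) (y : M) (hy : y ^ 2 = algebraMap k M (b : k)) :
    ∃ Y : 𝓞 M, (Y : M) = y ∧ Y ^ 2 = algebraMap (𝓞 k) (𝓞 M) b := by
  have h1 : IsIntegral ℤ (y ^ 2) := by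
    rw [hy]
    exact (RingOfIntegers.isIntegral_coe b).algebraMap
  have h2 : IsIntegral ℤ y := IsIntegral.of_pow two_pos h1
  refine ⟨⟨y, h2⟩, rfl, ?_⟩
  apply RingOfIntegers.ext
  change y ^ 2 = algebraMap k M (b : k)
  exact hy

omit [NumberField M] in
private theorem dq_two_notMem {P : HeightOneSpectrum (𝓞 k)} (h2 : ord P (2 : k) = 0)
    (Q : Ideal (𝓞 M)) [Q.IsPrime] (hQ : Q.comap (algebraMap (𝓞 k) (𝓞 M)) = P.asIdeal)
    {b : 𝓞 k} (hb : b ∉ P.asIdeal) {Y : 𝓞 M} (hY : Y ^ 2 = algebraMap (𝓞 k) (𝓞 M) b) :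
    2 * Y ∉ Q := by
  intro h
  have hpr : Q.IsPrime := inferInstance
  rcases hpr.mem_or_mem h with h3 | h3
  · apply dq_two h2
    rw [← hQ, Ideal.mem_comap, map_ofNat]
    exact h3
  · apply hb
    rw [← hQ, Ideal.mem_comap, ← hY]
    exact Q.pow_mem_of_mem h3 2 two_pos

omit [NumberField k] [NumberField M] in
private theorem dq_pm {a : k} {y : M} (hy : y ^ 2 = algebraMap k M a) (τ : M ≃ₐ[k] M) :
    τ y = y ∨ τ y = -y := by
  have h : (τ y) ^ 2 = y ^ 2 := by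
    rw [← map_pow, hy, AlgEquiv.commutes]
  exact sq_eq_sq_iff_eq_or_eq_neg.1 h

omit [NumberField k] [NumberField M] in
private theorem dq_coe (τ : M ≃ₐ[k] M) (x : 𝓞 M) : ((τ • x : 𝓞 M) : M) = τ x := rfl

/-- a unit model of a square root -/
private theorem dq_unit (P : HeightOneSpectrum (𝓞 k)) {a : k} (ha : a ≠ 0)
    (hev : Even (ord P a)) {y : M} (hy : y ^ 2 = algebraMap k M a) :
    ∃ (c : k) (b : 𝓞 k) (Y : 𝓞 M), c ≠ 0 ∧ a * c ^ 2 = (b : k) ∧ b ∉ P.asIdeal ∧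
      (Y : M) = algebraMap k M c * y ∧ Y ^ 2 = algebraMap (𝓞 k) (𝓞 M) b := by
  obtain ⟨m, hm⟩ := hev
  obtain ⟨c, b, hc, hb, ho⟩ := dq_norm P ha m 0 le_rfl (by rw [hm]; ring)
  obtain ⟨Y, hY1, hY2⟩ := dq_int b (algebraMap k M c * y) (by
    rw [mul_pow, hy, ← map_pow, ← map_mul, ← hb, mul_comm])
  refine ⟨c, b, Y, hc, hb, ?_, hY1, hY2⟩
  rw [dq_mem]
  rintro (h | h)
  · rw [h] at hb
    have h1 : a * c ^ 2 ≠ 0 := mul_ne_zero ha (pow_ne_zero 2 hc)
    exact h1 (by rw [hb]; rfl)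
  · omega

variable [IsGalois k M]

omit [IsGalois k M] in
private theorem dq_inertia (P : HeightOneSpectrum (𝓞 k)) (h2 : ord P (2 : k) = 0) (Q : Ideal (𝓞 M))
    [Q.IsPrime] (hQ : Q.comap (algebraMap (𝓞 k) (𝓞 M)) = P.asIdeal) {a : k} (ha : a ≠ 0)
    (hev : Even (ord P a)) {y : M} (hy : y ^ 2 = algebraMap k M a) (τ : M ≃ₐ[k] M)
    (hτ : τ ∈ Q.inertia (M ≃ₐ[k] M)) : τ y = y := by
  obtain ⟨c, b, Y, hc, hb, hbP, hY1, hY2⟩ := dq_unit P ha hev hy
  rcases dq_pm hy τ with h | h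
  · exact h
  · exfalso
    have h1 : τ • Y - Y ∈ Q := hτ Y
    have h3 : τ • Y = -Y := by
      apply RingOfIntegers.ext
      rw [dq_coe, hY1, map_mul, AlgEquiv.commutes, h]
      change _ = -(Y : M)
      rw [hY1]
      ring
    rw [h3] at h1
    have h4 : 2 * Y ∈ Q := by
      have h5 : 2 * Y = -(-Y - Y) := by ring
      rw [h5]
      exact Q.neg_mem h1
    exact dq_two_notMem h2 Q hQ hbP hY2 h4

theorem rd_quad_inertia (P : HeightOneSpectrum (𝓞 k)) (h2 : ord P (2 : k) = 0) (Q : Ideal (𝓞 M))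
    [Q.IsPrime] (hQ : Q.comap (algebraMap (𝓞 k) (𝓞 M)) = P.asIdeal) {a : k} (ha : a ≠ 0)
    (hev : Even (ord P a)) {y : M} (hy : y ^ 2 = algebraMap k M a) (τ : M ≃ₐ[k] M)
    (hτ : τ ∈ Q.inertia (M ≃ₐ[k] M)) : τ y = y :=
  dq_inertia P h2 Q hQ ha hev hy τ hτ

omit [IsGalois k M] in
/-- powers modulo `P` and the residue symbol -/
private theorem dq_euler (P : HeightOneSpectrum (𝓞 k)) (h2 : ord P (2 : k) = 0) (b : 𝓞 k)
    (hb : b ∉ P.asIdeal) : ∃ n : ℕ, Ideal.absNorm P.asIdeal = 2 * n + 1 ∧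
      (LocSq P (b : k) → b ^ n - 1 ∈ P.asIdeal) ∧ (¬ LocSq P (b : k) → b ^ n + 1 ∈ P.asIdeal) := by
  have hmax : P.asIdeal.IsMaximal := P.isMaximal
  let _ : Field (𝓞 k ⧸ P.asIdeal) := Ideal.Quotient.field P.asIdeal
  have hfin : Finite (𝓞 k ⧸ P.asIdeal) := Ideal.finiteQuotientOfFreeOfNeBot _ P.ne_bot
  let _ : Fintype (𝓞 k ⧸ P.asIdeal) := Fintype.ofFinite _
  have hcard : Ideal.absNorm P.asIdeal = Fintype.card (𝓞 k ⧸ P.asIdeal) := by
    rw [Ideal.absNorm_apply, Submodule.cardQuot_apply, Nat.card_eq_fintype_card]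
  have h2' : (2 : 𝓞 k ⧸ P.asIdeal) ≠ 0 := by
    intro h
    apply dq_two h2
    rw [← Ideal.Quotient.eq_zero_iff_mem, map_ofNat]
    exact h
  have hchar : ringChar (𝓞 k ⧸ P.asIdeal) ≠ 2 := by
    intro h
    apply h2'
    have h3 := ringChar.Nat.cast_ringChar (R := 𝓞 k ⧸ P.asIdeal)
    rw [h] at h3
    exact_mod_cast h3
  have hodd := FiniteField.odd_card_of_char_ne_two hchar
  have hb0 : Ideal.Quotient.mk P.asIdeal b ≠ 0 := by
    rw [Ne, Ideal.Quotient.eq_zero_iff_mem]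
    exact hb
  refine ⟨Fintype.card (𝓞 k ⧸ P.asIdeal) / 2, by rw [hcard]; omega, ?_, ?_⟩
  · intro h
    rw [← qr_eq_zero, qr_int h2 b hb] at h
    obtain ⟨c, hc⟩ := h
    rw [← Ideal.Quotient.eq, map_pow, map_one]
    rw [← FiniteField.isSquare_iff hchar hb0]
    refine ⟨Ideal.Quotient.mk P.asIdeal c, ?_⟩
    rw [← map_mul, Ideal.Quotient.eq, ← pow_two]
    exact hc
  · intro h
    have h3 : ¬ IsSquare (Ideal.Quotient.mk P.asIdeal b) := by
      rintro ⟨x, hx⟩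
      apply h
      rw [← qr_eq_zero, qr_int h2 b hb]
      obtain ⟨c, rfl⟩ := Ideal.Quotient.mk_surjective x
      refine ⟨c, ?_⟩
      rw [← Ideal.Quotient.eq, hx, pow_two, map_mul]
    have h4 := FiniteField.pow_dichotomy hchar hb0
    rw [FiniteField.isSquare_iff hchar hb0] at h3
    have h5 := h4.resolve_left h3
    have h6 : b ^ (Fintype.card (𝓞 k ⧸ P.asIdeal) / 2) + 1 =
        b ^ (Fintype.card (𝓞 k ⧸ P.asIdeal) / 2) - (-1) := by ring
    rw [h6, ← Ideal.Quotient.eq, map_pow, map_neg, map_one]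
    exact h5

omit [IsGalois k M] in
private theorem dq_frob (P : HeightOneSpectrum (𝓞 k)) (h2 : ord P (2 : k) = 0) (Q : Ideal (𝓞 M))
    [Q.IsPrime] (hQ : Q.comap (algebraMap (𝓞 k) (𝓞 M)) = P.asIdeal) {a : k} (ha : a ≠ 0)
    (hev : Even (ord P a)) {y : M} (hy : y ^ 2 = algebraMap k M a) (φ : M ≃ₐ[k] M)
    (hφ : ∀ x : 𝓞 M, φ • x - x ^ Ideal.absNorm P.asIdeal ∈ Q) :
    (LocSq P a → φ y = y) ∧ (¬ LocSq P a → φ y = -y) := by
  obtain ⟨c, b, Y, hc, hb, hbP, hY1, hY2⟩ := dq_unit P ha hev hy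
  obtain ⟨n, hn, h3, h4⟩ := dq_euler P h2 b hbP
  have hiff : LocSq P (b : k) ↔ LocSq P a := by
    rw [← hb]
    exact locSq_mul_sq P hc a
  have hpow : Y ^ Ideal.absNorm P.asIdeal = algebraMap (𝓞 k) (𝓞 M) (b ^ n) * Y := by
    rw [hn, pow_succ, pow_mul, hY2, map_pow]
  have hφY := hφ Y
  rw [hpow] at hφY
  have hpm : ∀ s : M, φ y = s * y → (φ • Y : 𝓞 M) = (φ • Y : 𝓞 M) ∧
      ((φ • Y : 𝓞 M) : M) = s * (Y : M) := by
    intro s hs
    refine ⟨rfl, ?_⟩
    rw [dq_coe, hY1, map_mul, AlgEquiv.commutes, hs]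
    ring
  constructor
  · intro hsq
    rcases dq_pm hy φ with h | h
    · exact h
    · exfalso
      have h5 : φ • Y = -Y := by
        apply RingOfIntegers.ext
        rw [(hpm (-1) (by rw [h]; ring)).2]
        change _ = -(Y : M)
        ring
      rw [h5] at hφY
      have h6 : algebraMap (𝓞 k) (𝓞 M) (b ^ n - 1) ∈ Q := by
        rw [← Ideal.mem_comap, hQ]
        exact h3 (hiff.2 hsq)
      have h7 : 2 * Y ∈ Q := by
        have h8 : 2 * Y = -(-Y - algebraMap (𝓞 k) (𝓞 M) (b ^ n) * Y) -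
            algebraMap (𝓞 k) (𝓞 M) (b ^ n - 1) * Y := by
          rw [map_sub, map_one]
          ring
        rw [h8]
        exact Q.sub_mem (Q.neg_mem hφY) (Q.mul_mem_right _ h6)
      exact dq_two_notMem h2 Q hQ hbP hY2 h7
  · intro hsq
    rcases dq_pm hy φ with h | h
    · exfalso
      have h5 : φ • Y = Y := by
        apply RingOfIntegers.ext
        rw [(hpm 1 (by rw [h]; ring)).2, one_mul]
      rw [h5] at hφY
      have h6 : algebraMap (𝓞 k) (𝓞 M) (b ^ n + 1) ∈ Q := by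
        rw [← Ideal.mem_comap, hQ]
        exact h4 (fun h => hsq (hiff.1 h))
      have h7 : 2 * Y ∈ Q := by
        have h8 : 2 * Y = (Y - algebraMap (𝓞 k) (𝓞 M) (b ^ n) * Y) +
            algebraMap (𝓞 k) (𝓞 M) (b ^ n + 1) * Y := by
          rw [map_add, map_one]
          ring
        rw [h8]
        exact Q.add_mem hφY (Q.mul_mem_right _ h6)
      exact dq_two_notMem h2 Q hQ hbP hY2 h7
    · exact h

theorem rd_quad_frob (P : HeightOneSpectrum (𝓞 k)) (h2 : ord P (2 : k) = 0) (Q : Ideal (𝓞 M))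
    [Q.IsPrime] (hQ : Q.comap (algebraMap (𝓞 k) (𝓞 M)) = P.asIdeal) {a : k} (ha : a ≠ 0)
    (hev : Even (ord P a)) {y : M} (hy : y ^ 2 = algebraMap k M a) (φ : M ≃ₐ[k] M)
    (hφ : ∀ x : 𝓞 M, φ • x - x ^ Ideal.absNorm P.asIdeal ∈ Q) :
    (LocSq P a → φ y = y) ∧ (¬ LocSq P a → φ y = -y) :=
  dq_frob P h2 Q hQ ha hev hy φ hφ

/-- The inertia group over a subfield is at least as large, if the inertia group fixes it. -/
private theorem dq_card (F : IntermediateField k M) (Q : Ideal (𝓞 M))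
    (h : Q.inertia (M ≃ₐ[k] M) ≤ F.fixingSubgroup) :
    Nat.card (Q.inertia (M ≃ₐ[k] M)) ≤ Nat.card (Q.inertia (M ≃ₐ[F] M)) := by
  let f : Q.inertia (M ≃ₐ[k] M) → Q.inertia (M ≃ₐ[F] M) := fun σ =>
    ⟨IntermediateField.fixingSubgroupEquiv F ⟨σ.1, h σ.2⟩, fun x => σ.2 x⟩
  refine Nat.card_le_card_of_injective f ?_
  intro σ σ' h1
  have h2 := congrArg Subtype.val h1
  have h3 := (IntermediateField.fixingSubgroupEquiv F).injective h2
  apply Subtype.ext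
  exact Subtype.mk.inj h3

theorem rd_quad_ram (P : HeightOneSpectrum (𝓞 k)) (Q : Ideal (𝓞 M))
    [Q.IsPrime] (hQ : Q.comap (algebraMap (𝓞 k) (𝓞 M)) = P.asIdeal) {a : k}
    (hod : Odd (ord P a)) {y : M} (hy : y ^ 2 = algebraMap k M a) (τ : M ≃ₐ[k] M)
    (hτ : Subgroup.zpowers τ = Q.inertia (M ≃ₐ[k] M)) : τ y = -y := by
  rcases dq_pm hy τ with hfix | h
  swap
  · exact h
  exfalso
  have ha : a ≠ 0 := by
    rintro rfl
    rw [ord_zero] at hod
    simp at hod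
  let F : IntermediateField k M := IntermediateField.adjoin k {y}
  have hyF : y ∈ F := IntermediateField.mem_adjoin_simple_self k y
  have hI : Q.inertia (M ≃ₐ[k] M) ≤ F.fixingSubgroup := by
    rw [← hτ, Subgroup.zpowers_le, IntermediateField.mem_fixingSubgroup_iff]
    intro x hx
    have h1 : F ≤ IntermediateField.fixedField (Subgroup.zpowers τ) := by
      rw [IntermediateField.adjoin_simple_le_iff, IntermediateField.mem_fixedField_iff]
      intro g hg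
      have h2 : Subgroup.zpowers τ ≤ MulAction.stabilizer (M ≃ₐ[k] M) y := by
        rw [Subgroup.zpowers_le]
        exact hfix
      exact h2 hg
    exact (IntermediateField.mem_fixedField_iff _ _).1 (h1 hx) τ (Subgroup.mem_zpowers τ)
  have hcard := dq_card F Q hI
  have hunder : Q.under (𝓞 k) = P.asIdeal := hQ
  have hp0 : (Q.under (𝓞 k)) ≠ ⊥ := by
    rw [hunder]
    exact P.ne_bot
  have hcomap : (Q.under (𝓞 F)).comap (algebraMap (𝓞 k) (𝓞 F)) = P.asIdeal := by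
    rw [← hQ, Ideal.under, Ideal.comap_comap]
    rfl
  have hPF0 : (Q.under (𝓞 F)) ≠ ⊥ := by
    intro h
    rw [h] at hcomap
    apply P.ne_bot
    rw [← hcomap, eq_bot_iff]
    intro x hx
    rw [Ideal.mem_comap, Ideal.mem_bot] at hx
    rw [Ideal.mem_bot]
    exact (map_eq_zero_iff _ (FaithfulSMul.algebraMap_injective (𝓞 k) (𝓞 F))).1 hx
  have hmax0 : (Q.under (𝓞 k)).IsMaximal := Ideal.IsPrime.isMaximal inferInstance hp0
  have hmaxF : (Q.under (𝓞 F)).IsMaximal := Ideal.IsPrime.isMaximal inferInstance hPF0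
  have hfin0 : Finite (𝓞 k ⧸ Q.under (𝓞 k)) := Ring.HasFiniteQuotients.finiteQuotient hp0
  have hfinF : Finite (𝓞 F ⧸ Q.under (𝓞 F)) := Ring.HasFiniteQuotients.finiteQuotient hPF0
  have e1 : Nat.card (Q.inertia (M ≃ₐ[k] M)) = Q.ramificationIdx (𝓞 k) := by
    rw [Ideal.card_inertia_eq_ramificationIdxIn (Q.under (𝓞 k)) Q,
      Ideal.ramificationIdxIn_eq_ramificationIdx (Q.under (𝓞 k)) Q (M ≃ₐ[k] M)]
  have e2 : Nat.card (Q.inertia (M ≃ₐ[F] M)) = Q.ramificationIdx (𝓞 F) := by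
    rw [Ideal.card_inertia_eq_ramificationIdxIn (Q.under (𝓞 F)) Q,
      Ideal.ramificationIdxIn_eq_ramificationIdx (Q.under (𝓞 F)) Q (M ≃ₐ[F] M)]
  have e3 := Ideal.ramificationIdx_tower (R := 𝓞 k) (Q.under (𝓞 F)) Q
  have e4 : 0 < Q.ramificationIdx (𝓞 k) := Ideal.ramificationIdx_pos Q (𝓞 k)
  have e5 : 0 < Q.ramificationIdx (𝓞 F) := Ideal.ramificationIdx_pos Q (𝓞 F)
  rw [e1, e2] at hcard
  have e6 : (Q.under (𝓞 F)).ramificationIdx (𝓞 k) = 1 := by
    have h1 : (Q.under (𝓞 F)).ramificationIdx (𝓞 k) ≤ 1 := by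
      by_contra h2
      push Not at h2
      have h3 : 2 * Q.ramificationIdx (𝓞 F) ≤ Q.ramificationIdx (𝓞 k) := by
        rw [e3]
        exact Nat.mul_le_mul_right _ h2
      omega
    have h2 : (Q.under (𝓞 F)).ramificationIdx (𝓞 k) ≠ 0 := by
      intro h3
      rw [h3, Nat.zero_mul] at e3
      omega
    omega
  have hle : (Q.under (𝓞 k)).map (algebraMap (𝓞 k) (𝓞 F)) ≤ Q.under (𝓞 F) := by
    rw [Ideal.map_le_iff_le_comap, hcomap, hunder]
  have e7 : (Q.under (𝓞 k)).ramificationIdx' (Q.under (𝓞 F)) = 1 := by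
    rw [Ideal.ramificationIdx'_eq_ramificationIdx _ _ hp0, e6]
  obtain ⟨m, hm⟩ := hod
  obtain ⟨c, b, hc, hb, hob⟩ := dq_norm P ha m 1 zero_le_one hm
  obtain ⟨Y, hY1, hY2⟩ := dq_int (M := F) b (algebraMap k F c * ⟨y, hyF⟩) (by
    apply Subtype.ext
    push_cast
    rw [← hb]
    change (algebraMap k M c * y) ^ 2 = algebraMap k M (a * c ^ 2)
    rw [mul_pow, hy, ← map_pow, ← map_mul, mul_comm])
  have hbP : b ∈ P.asIdeal := by
    rw [dq_mem]
    right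
    rw [hob]
  have hYP : Y ∈ Q.under (𝓞 F) := by
    have h1 : Y ^ 2 ∈ Q.under (𝓞 F) := by
      rw [hY2, ← Ideal.mem_comap, hcomap]
      exact hbP
    exact Ideal.IsPrime.mem_of_pow_mem inferInstance 2 h1
  have hb2 : algebraMap (𝓞 k) (𝓞 F) b ∈ (Q.under (𝓞 F)) ^ 2 := by
    rw [← hY2]
    exact Ideal.pow_mem_pow hYP 2
  refine (Ideal.ramificationIdx'_ne_one_iff hle).2 ?_ e7
  -- `(b) = P * I` with `I` prime to `P`
  obtain ⟨I, hI2⟩ : P.asIdeal ∣ Ideal.span {b} := by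
    rw [Ideal.dvd_iff_le, Ideal.span_singleton_le_iff_mem]
    exact hbP
  have hIP : ¬ I ≤ P.asIdeal := by
    intro h
    have h1 : b ∈ P.asIdeal ^ 2 := by
      rw [← Ideal.span_singleton_le_iff_mem, hI2, pow_two]
      exact Ideal.mul_mono_right h
    rw [← le_ord_iff P b 2, hob] at h1
    rcases h1 with h1 | h1
    · rw [h1] at hob
      have h0 : ((0 : 𝓞 k) : k) = 0 := rfl
      rw [h0, ord_zero] at hob
      exact zero_ne_one hob
    · norm_num at h1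
  rw [hunder]
  have hprime : Prime (Q.under (𝓞 F)) := Ideal.prime_of_isPrime hPF0 inferInstance
  have h3 : (Q.under (𝓞 F)) ^ 2 ∣ (P.asIdeal).map (algebraMap (𝓞 k) (𝓞 F)) *
      I.map (algebraMap (𝓞 k) (𝓞 F)) := by
    rw [← Ideal.map_mul, ← hI2, Ideal.map_span, Set.image_singleton, Ideal.dvd_iff_le,
      Ideal.span_singleton_le_iff_mem]
    exact hb2
  have h4 : ¬ (Q.under (𝓞 F)) ∣ I.map (algebraMap (𝓞 k) (𝓞 F)) := by
    intro h
    rw [Ideal.dvd_iff_le, Ideal.map_le_iff_le_comap, hcomap] at h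
    exact hIP h
  rw [← Ideal.dvd_iff_le]
  exact hprime.pow_dvd_of_dvd_mul_right 2 h4 h3

end

end Pool.Agent.H98.MF
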