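import Pool.Agent.H98.MF.D.Orb
import Pool.Agent.H98.MF.D.Gen
import Pool.Agent.H98.MF.D.QuadL
import Pool.Agent.H98.MF.L.Top
import Pool.Agent.H98.MF.L.ChiB
import Pool.Agent.H98.MF.L.Fld
import Pool.Agent.H98.ML.LhTauA
import Pool.Agent.H98.ML.GDA

/-!
# Project MK4, block D: tame generators at a finite layer (helper31)
-/

set_option autoImplicit false

open scoped BigOperators Pointwise
open NumberField IsDedekindDomain

namespace Pool.Agent.H98.MF

open Pool.Agent.H67.MU (vexp)
open Pool.Agent.H98.ML (norb gd_mem_diff m3_norb)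

section

variable {k : Type} [Field k] [NumberField k]

theorem fin_diff_le {F F' : Type} [Field F] [NumberField F] [Algebra k F] [Field F']
    [NumberField F'] [Algebra k F'] (e : F ≃ₐ[k] F') :
    (differentIdeal (𝓞 k) (𝓞 F)).map (RingOfIntegers.mapAlgEquiv e) ≤
      differentIdeal (𝓞 k) (𝓞 F') := by
  rw [Ideal.map_le_iff_le_comap]
  intro x hx
  rw [Ideal.mem_comap]
  rw [gd_mem_diff] at hx ⊢
  intro y hy
  obtain ⟨z, hz⟩ := hx (e.symm y) fun b => by
    have h1 := hy (RingOfIntegers.mapAlgEquiv e b)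
    have h2 : ((RingOfIntegers.mapAlgEquiv e b : 𝓞 F') : F') = e (b : F) := rfl
    rw [h2] at h1
    have h3 : Algebra.trace k F (e.symm y * (b : F)) =
        Algebra.trace k F' (y * e (b : F)) := by
      rw [← Algebra.trace_eq_of_algEquiv e, map_mul, AlgEquiv.apply_symm_apply]
    rw [h3]
    exact h1
  refine ⟨RingOfIntegers.mapAlgEquiv e z, ?_⟩
  have h4 : ((RingOfIntegers.mapAlgEquiv e x : 𝓞 F') : F') = e (x : F) := rfl
  have h5 : ((RingOfIntegers.mapAlgEquiv e z : 𝓞 F') : F') = e (z : F) := rfl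
  rw [h4, h5, ← hz, map_mul, AlgEquiv.apply_symm_apply]

theorem fin_diff_map {F F' : Type} [Field F] [NumberField F] [Algebra k F] [Field F']
    [NumberField F'] [Algebra k F'] (e : F ≃ₐ[k] F') :
    (differentIdeal (𝓞 k) (𝓞 F)).map (RingOfIntegers.mapAlgEquiv e) =
      differentIdeal (𝓞 k) (𝓞 F') := by
  refine le_antisymm (fin_diff_le e) ?_
  intro x hx
  have h1 := fin_diff_le e.symm (Ideal.mem_map_of_mem _ hx)
  have h2 := Ideal.mem_map_of_mem (RingOfIntegers.mapAlgEquiv e) h1
  have h3 : RingOfIntegers.mapAlgEquiv e (RingOfIntegers.mapAlgEquiv e.symm x) = x :=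
    RingOfIntegers.ext (e.apply_symm_apply (x : F'))
  rwa [h3] at h2

/-- the exponent of the relative discriminant is invariant under isomorphisms -/
theorem fin_rex_equiv (P : HeightOneSpectrum (𝓞 k)) {F F' : Type} [Field F] [NumberField F]
    [Algebra k F] [Field F'] [NumberField F'] [Algebra k F'] (e : F ≃ₐ[k] F') :
    rex P F = rex P F' := by
  unfold rex
  rw [← fin_diff_map e, Ideal.relNorm_map_algEquiv]

end

section

variable {k : Type} [Field k] [NumberField k]

/-- the fixed field of the image of `W` in the Galois group of `fld k U` is `fld k W` -/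
theorem fin_lift (U W : Subgroup (Gm k)) (hUW : U ≤ W)
    (π : Gm k →* ((fld k U) ≃ₐ[k] (fld k U)))
    (hπ : ∀ (σ : Gm k) (x : fld k U), ((π σ x : fld k U) : Om k) = σ (x : Om k)) :
    IntermediateField.lift (IntermediateField.fixedField (W.map π)) = fld k W := by
  ext x
  constructor
  · intro hx
    have hxU : x ∈ fld k U := IntermediateField.lift_le _ hx
    have hx2 : (⟨x, hxU⟩ : fld k U) ∈ IntermediateField.fixedField (W.map π) :=
      (IntermediateField.mem_lift (⟨x, hxU⟩ : fld k U)).1 hx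
    rw [IntermediateField.mem_fixedField_iff] at hx2
    refine (IntermediateField.mem_fixedField_iff W x).2 fun σ hσ => ?_
    have h1 := hx2 (π σ) (Subgroup.mem_map_of_mem π hσ)
    have h2 := congrArg (fun z : fld k U => (z : Om k)) h1
    simp only [hπ] at h2
    exact h2
  · intro hx
    have hxU : x ∈ fld k U := fldK_mono hUW hx
    refine (IntermediateField.mem_lift (⟨x, hxU⟩ : fld k U)).2 ?_
    rw [IntermediateField.mem_fixedField_iff]
    rintro _ ⟨σ, hσ, rfl⟩
    apply Subtype.ext
    exact (hπ σ ⟨x, hxU⟩).trans ((IntermediateField.mem_fixedField_iff W x).1 hx σ hσ)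

theorem fin_rexp_eq (P : HeightOneSpectrum (𝓞 k)) (U W : Subgroup (Gm k)) (hUW : U ≤ W)
    [hU : NumberField (fld k U)] (π : Gm k →* ((fld k U) ≃ₐ[k] (fld k U)))
    (hπ : ∀ (σ : Gm k) (x : fld k U), ((π σ x : fld k U) : Om k) = σ (x : Om k)) :
    rexp P (fld k W) = rex P (IntermediateField.fixedField (W.map π)) := by
  have e := IntermediateField.liftAlgEquiv (IntermediateField.fixedField (W.map π))
  have hN : NumberField (IntermediateField.lift (IntermediateField.fixedField (W.map π))) :=
    { to_charZero := inferInstance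
      to_finiteDimensional :=
        (e.toLinearEquiv.restrictScalars ℚ).finiteDimensional }
  rw [← fin_lift U W hUW π hπ]
  unfold rexp
  rw [dif_pos hN]
  exact (fin_rex_equiv P e).symm

theorem fin_sq_mem {U : Subgroup (Gm k)} {a : k} (h : ∀ σ ∈ U, chi a σ = 0) :
    sq a ∈ fld k U :=
  (IntermediateField.mem_fixedField_iff U (sq a)).2 fun σ hσ =>
    (chi_eq_zero_iff (sq_sq a) σ).1 (h σ hσ)

theorem rd_fin (P : HeightOneSpectrum (𝓞 k)) (h2 : ord P (2 : k) = 0) (U : Subgroup (Gm k))
    [U.Normal] (hU : IsOpen (U : Set (Gm k))) (j : ℕ) (hj : U.index = 2 ^ j) :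
    ∃ τ φ : Gm k, τ ∈ Dec P ∧ φ ∈ Dec P ∧ φ * τ * φ⁻¹ * (τ ^ Ideal.absNorm P.asIdeal)⁻¹ ∈ U ∧
      (∀ W : Subgroup (Gm k), U ≤ W → rexp P (fld k W) + norb W τ = W.index) ∧
      (∀ a : k, a ≠ 0 → Even (ord P a) → (∀ σ ∈ U, chi a σ = 0) →
        chi a τ = 0 ∧ chi a φ = qr a P) ∧
      ∀ a : k, Odd (ord P a) → (∀ σ ∈ U, chi a σ = 0) → chi a τ = 1 := by
  have hfin : Module.finrank k (fld k U) = 2 ^ j := (fldK_finrank U hU).trans hj
  have hFD : FiniteDimensional k (fld k U) := fldK_finite U hU
  have hNU : NumberField (fld k U) := fldK_nf U hU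
  have hGal : IsGalois k (fld k U) := fldK_galois U hU
  have hQp : (low P (fld k U)).IsPrime := low_prime P (fld k U)
  have hQc := low_comap P (fld k U)
  obtain ⟨τ0, φ0, hz, hφ0, hφQ, hrel⟩ := rd_gen j hfin P h2 (low P (fld k U)) hQc
  have hin0 : τ0 ∈ (low P (fld k U)).inertia (fld k U ≃ₐ[k] fld k U) := by
    rw [← hz]
    exact Subgroup.mem_zpowers _
  obtain ⟨π, hπs, hπk, hπ⟩ := exists_resK U hU
  obtain ⟨τ, hτD, hτ0⟩ := dec_surj P (fld k U) τ0 (Ideal.inertia_le_stabilizer _ hin0)
  obtain ⟨φ, hφD, hφ1⟩ := dec_surj P (fld k U) φ0 hφQ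
  have hres : ∀ σ : Gm k, π σ = AlgEquiv.restrictNormal σ (fld k U) := by
    intro σ
    apply AlgEquiv.ext
    intro x
    apply Subtype.ext
    rw [hπ]
    exact (AlgEquiv.restrictNormal_commutes σ (fld k U) x).symm
  have hτ : π τ = τ0 := (hres τ).trans hτ0
  have hφ : π φ = φ0 := (hres φ).trans hφ1
  subst hτ hφ
  have key : ∀ a : k, ∀ h : sq a ∈ fld k U,
      (⟨sq a, h⟩ : fld k U) ^ 2 = algebraMap k (fld k U) a := by
    intro a h
    apply Subtype.ext
    exact sq_sq a
  refine ⟨τ, φ, hτD, hφD, ?_, ?_, ?_, ?_⟩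
  · rw [← hπk, MonoidHom.mem_ker, map_mul, map_mul, map_mul, map_inv, map_inv, map_pow, hrel,
      mul_inv_cancel]
  · intro W hUW
    have hWc : (W.map π).comap π = W := by
      rw [Subgroup.comap_map_eq, hπk, sup_eq_left.2 hUW]
    have h1 := rd_orb j hfin P h2 (low P (fld k U)) hQc (π τ) hz (W.map π)
    have h2 : norb W τ = norb (W.map π) (π τ) := by
      conv_lhs => rw [← hWc]
      exact m3_norb π hπs (W.map π) τ
    have h3 : W.index = (W.map π).index := by
      conv_lhs => rw [← hWc]
      exact Subgroup.index_comap_of_surjective _ hπs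
    rw [fin_rexp_eq P U W hUW π hπ, h2, h3]
    exact h1
  · intro a ha hev hσ
    have hmem : sq a ∈ fld k U := fin_sq_mem hσ
    have h1 := rd_quad_inertia P h2 (low P (fld k U)) hQc ha hev (key a hmem) (π τ) hin0
    have h3 := rd_quad_frob P h2 (low P (fld k U)) hQc ha hev (key a hmem) (π φ) hφ0
    have h1' : τ (sq a) = sq a := by
      have := congrArg (fun z : fld k U => (z : Om k)) h1
      simpa only [hπ] using this
    refine ⟨(chi_eq_zero_iff (sq_sq a) τ).2 h1', ?_⟩
    unfold qr
    by_cases hl : LocSq P a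
    · rw [if_pos hl]
      have h4 := h3.1 hl
      have h4' : φ (sq a) = sq a := by
        have := congrArg (fun z : fld k U => (z : Om k)) h4
        simpa only [hπ] using this
      exact (chi_eq_zero_iff (sq_sq a) φ).2 h4'
    · rw [if_neg hl]
      have h4 := h3.2 hl
      have h4' : φ (sq a) = -sq a := by
        have := congrArg (fun z : fld k U => (z : Om k)) h4
        simp only [hπ] at this
        exact this
      exact (chi_eq_one_iff ha (sq_sq a) φ).2 h4'
  · intro a hod hσ
    have ha : a ≠ 0 := by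
      rintro rfl
      unfold ord at hod
      rw [FractionalIdeal.spanSingleton_zero, FractionalIdeal.count_zero] at hod
      exact absurd hod (by decide)
    have hmem : sq a ∈ fld k U := fin_sq_mem hσ
    have h1 := rd_quad_ram P (low P (fld k U)) hQc hod (key a hmem) (π τ) hz
    have h1' : τ (sq a) = -sq a := by
      have := congrArg (fun z : fld k U => (z : Om k)) h1
      simp only [hπ] at this
      exact this
    exact (chi_eq_one_iff ha (sq_sq a) τ).2 h1'

end

end Pool.Agent.H98.MF
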