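import Pool.Agent.H98.MF.D.Trans
import Pool.Agent.H98.ML.GD

/-!
# Project MK4, block D: exponents of relative discriminants of subfields (helper33)
-/

set_option autoImplicit false

open scoped BigOperators Pointwise
open NumberField IsDedekindDomain

namespace Pool.Agent.H98.MF

open Pool.Agent.H67.MU
open Pool.Agent.H98.MK
open Pool.Agent.H98.ML (norb gd_sum_comp gd_card_comap gd_comap_conj)

section

variable {k : Type} [Field k] [NumberField k]
variable {M : Type} [Field M] [NumberField M] [Algebra k M] [IsGalois k M]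

theorem rd_card (Q : Ideal (𝓞 M)) [Q.IsPrime] (F : IntermediateField k M) :
    Q.ramificationIdx (𝓞 F) =
      Nat.card (Q.inertia (M ≃ₐ[k] M) ⊓ F.fixingSubgroup : Subgroup (M ≃ₐ[k] M)) := by
  have hG : IsGaloisGroup F.fixingSubgroup F M :=
    inferInstanceAs (IsGaloisGroup (fixingSubgroup (M ≃ₐ[k] M) (F : Set M)) F M)
  have hG2 : IsGaloisGroup F.fixingSubgroup (𝓞 F) (𝓞 M) :=
    IsGaloisGroup.of_isFractionRing F.fixingSubgroup (𝓞 F) (𝓞 M) F M
  rw [← Ideal.ramificationIdxIn_eq_ramificationIdx (Q.under (𝓞 F)) Q F.fixingSubgroup,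
    ← Ideal.card_inertia_eq_ramificationIdxIn (G := F.fixingSubgroup) (Q.under (𝓞 F)) Q]
  have h : (Q.inertia F.fixingSubgroup).map F.fixingSubgroup.subtype =
      Q.inertia (M ≃ₐ[k] M) ⊓ F.fixingSubgroup := AddSubgroup.inertia_map_subtype _ _
  rw [← h]
  exact (Subgroup.card_map_of_injective F.fixingSubgroup.subtype_injective).symm

theorem rd_key (Q : Ideal (𝓞 M)) [Q.IsPrime] (hQ : Q ≠ ⊥) (F : IntermediateField k M)
    (J : Subgroup (M ≃ₐ[k] M)) (hJ : Q.inertia (M ≃ₐ[k] M) ⊓ F.fixingSubgroup = J) :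
    vexp Q (differentIdeal (𝓞 F) (𝓞 M)) =
      vexp Q (differentIdeal (𝓞 (IntermediateField.fixedField J)) (𝓞 M)) := by
  have hFE : F ≤ IntermediateField.fixedField J := by
    rw [IntermediateField.le_iff_le, ← hJ]
    exact inf_le_right
  have hfix : (IntermediateField.fixedField J).fixingSubgroup = J :=
    IntermediateField.fixingSubgroup_fixedField J
  let _ : Algebra F (IntermediateField.fixedField J) :=
    (IntermediateField.inclusion hFE).toRingHom.toAlgebra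
  have : IsScalarTower F (IntermediateField.fixedField J) M :=
    IsScalarTower.of_algebraMap_eq fun x => rfl
  refine dt_eq Q hQ ?_
  rw [rd_card, rd_card, hJ, hfix, ← hJ, ← inf_assoc, inf_idem]

omit [IsGalois k M] in
theorem rd_ne_bot {P : HeightOneSpectrum (𝓞 k)} {Q : Ideal (𝓞 M)}
    (hQ : Q.comap (algebraMap (𝓞 k) (𝓞 M)) = P.asIdeal) : Q ≠ ⊥ := by
  rintro rfl
  apply P.ne_bot
  rw [← hQ]
  exact Ideal.comap_bot_of_injective _ (FaithfulSMul.algebraMap_injective (𝓞 k) (𝓞 M))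

omit [IsGalois k M] in
/-- the exponent of the relative discriminant in a tower -/
theorem rd_tower (P : HeightOneSpectrum (𝓞 k)) (F : IntermediateField k M) :
    rex P M = vexp P.asIdeal (Ideal.relNorm (𝓞 k) (differentIdeal (𝓞 F) (𝓞 M))) +
      Module.finrank F M * rex P F := by
  have h1 : differentIdeal (𝓞 k) (𝓞 F) ≠ ⊥ := differentIdeal_ne_bot
  have h2 : differentIdeal (𝓞 F) (𝓞 M) ≠ ⊥ := differentIdeal_ne_bot
  have h3 : (differentIdeal (𝓞 k) (𝓞 F)).map (algebraMap (𝓞 F) (𝓞 M)) ≠ ⊥ :=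
    Ideal.map_ne_bot_of_ne_bot h1
  have h4 : Module.finrank (𝓞 F) (𝓞 M) = Module.finrank F M :=
    (IsFractionRing.finrank_eq (𝓞 F) F (𝓞 M) M).symm
  have h5 : Ideal.relNorm (𝓞 k) ((differentIdeal (𝓞 k) (𝓞 F)).map
      (algebraMap (𝓞 F) (𝓞 M))) =
      Ideal.relNorm (𝓞 k) (differentIdeal (𝓞 k) (𝓞 F)) ^ Module.finrank F M := by
    rw [← Ideal.relNorm_relNorm (𝓞 k) (𝓞 F), Ideal.relNorm_algebraMap (𝓞 M), map_pow, h4]
  unfold rex
  rw [differentIdeal_eq_differentIdeal_mul_differentIdeal (𝓞 k) (𝓞 F) (𝓞 M), map_mul,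
    mu1_vexp_mul, h5]
  · congr 1
    have h6 : Ideal.relNorm (𝓞 k) (differentIdeal (𝓞 k) (𝓞 F)) ≠ ⊥ := by
      rw [Ne, Ideal.relNorm_eq_bot_iff]
      exact h1
    generalize Ideal.relNorm (𝓞 k) (differentIdeal (𝓞 k) (𝓞 F)) = I at h6
    generalize Module.finrank F M = n
    induction n with
    | zero =>
      rw [pow_zero, mu1_vexp_one, zero_mul]
    | succ n ih =>
      rw [pow_succ, mu1_vexp_mul _ _ _ (pow_ne_zero n h6) h6, ih]
      ring
  · rw [Ne, Ideal.relNorm_eq_bot_iff]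
    exact h2
  · rw [Ne, Ideal.relNorm_eq_bot_iff]
    exact h3

/-- the exponent of the different of `M` over the fixed field of `J` -/
noncomputable def rdel (Q : Ideal (𝓞 M)) (J : Subgroup (M ≃ₐ[k] M)) : ℕ :=
  vexp Q (differentIdeal (𝓞 (IntermediateField.fixedField J)) (𝓞 M))

theorem rd_formula (P : HeightOneSpectrum (𝓞 k)) (Q : Ideal (𝓞 M)) [Q.IsPrime]
    (hQ : Q.comap (algebraMap (𝓞 k) (𝓞 M)) = P.asIdeal) (F : IntermediateField k M) :
    Nat.card F.fixingSubgroup * Nat.card (Q.inertia (M ≃ₐ[k] M)) * rex P F +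
      ∑ σ : M ≃ₐ[k] M, rdel Q (Q.inertia (M ≃ₐ[k] M) ⊓ MulAut.conj σ • F.fixingSubgroup) =
    Nat.card (Q.inertia (M ≃ₐ[k] M)) * rex P M := by
  classical
  have hQ0 := rd_ne_bot hQ
  have hd : differentIdeal (𝓞 F) (𝓞 M) ≠ ⊥ := differentIdeal_ne_bot
  have h2 : Module.finrank F M = Nat.card F.fixingSubgroup :=
    (IsGalois.card_fixingSubgroup_eq_finrank F).symm
  have h3 := rd_tower P F
  have h4 := rd_norm P Q hQ _ hd
  have h5 : ∑ σ : M ≃ₐ[k] M, vexp (σ • Q) (differentIdeal (𝓞 F) (𝓞 M)) =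
      ∑ σ : M ≃ₐ[k] M, rdel Q (Q.inertia (M ≃ₐ[k] M) ⊓ MulAut.conj σ • F.fixingSubgroup) := by
    rw [← Equiv.sum_comp (Equiv.inv (M ≃ₐ[k] M))
      (fun σ : M ≃ₐ[k] M => vexp (σ • Q) (differentIdeal (𝓞 F) (𝓞 M)))]
    refine Finset.sum_congr rfl fun σ _ => ?_
    have h6 := rd_transport σ⁻¹ (F.map (σ : M →ₐ[k] M)) F (rd_map_inv σ F _ rfl) Q hQ0
    rw [Equiv.inv_apply, h6]
    refine rd_key Q hQ0 _ _ ?_
    rw [← IsGalois.map_fixingSubgroup]
  rw [← h5, ← h4, h3, h2]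
  ring

theorem rd_sub (P : HeightOneSpectrum (𝓞 k)) (Q : Ideal (𝓞 M)) [Q.IsPrime]
    (hQ : Q.comap (algebraMap (𝓞 k) (𝓞 M)) = P.asIdeal) (H : Subgroup (M ≃ₐ[k] M)) :
    rex P (IntermediateField.fixedField H) * Nat.card H * Nat.card (Q.inertia (M ≃ₐ[k] M)) +
      ∑ g : M ≃ₐ[k] M, vexp Q (differentIdeal (𝓞 (IntermediateField.fixedField
        (Q.inertia (M ≃ₐ[k] M) ⊓ H.comap (MulAut.conj g).toMonoidHom))) (𝓞 M)) =
      rex P M * Nat.card (Q.inertia (M ≃ₐ[k] M)) := by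
  have h := rd_formula P Q hQ (IntermediateField.fixedField H)
  rw [IntermediateField.fixingSubgroup_fixedField] at h
  rw [mul_comm (rex P M), ← h]
  congr 1
  · ring
  · rw [← Equiv.sum_comp (Equiv.inv (M ≃ₐ[k] M)) (fun σ : M ≃ₐ[k] M =>
      rdel Q (Q.inertia (M ≃ₐ[k] M) ⊓ MulAut.conj σ • H))]
    refine Finset.sum_congr rfl fun g _ => ?_
    have h1 : MulAut.conj (Equiv.inv (M ≃ₐ[k] M) g) • H =
        H.comap (MulAut.conj g).toMonoidHom := by
      ext x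
      rw [Subgroup.mem_pointwise_smul_iff_inv_smul_mem, Subgroup.mem_comap, Equiv.inv_apply,
        map_inv, inv_inv, MulAut.smul_def]
      rfl
    rw [h1]
    rfl

theorem rd_compare {Γ : Type} [Group Γ] [Finite Γ] (P : HeightOneSpectrum (𝓞 k))
    (Q : Ideal (𝓞 M)) [Q.IsPrime] (hQ : Q.comap (algebraMap (𝓞 k) (𝓞 M)) = P.asIdeal)
    (H : Subgroup Γ) (ρ ρ' : (M ≃ₐ[k] M) →* Γ) (hρ : Function.Surjective ρ)
    (hρ' : Function.Surjective ρ') (F F' : IntermediateField k M)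
    (hF : F.fixingSubgroup = H.comap ρ) (hF' : F'.fixingSubgroup = H.comap ρ') (c : Γ)
    (h : ∀ s ∈ Q.inertia (M ≃ₐ[k] M), ρ s = c * ρ' s * c⁻¹) : rex P F = rex P F' := by
  classical
  have := Fintype.ofFinite Γ
  have key : ∀ (ρ : (M ≃ₐ[k] M) →* Γ) (F : IntermediateField k M),
      Function.Surjective ρ → F.fixingSubgroup = H.comap ρ →
      Nat.card (M ≃ₐ[k] M) * Nat.card H * Nat.card (Q.inertia (M ≃ₐ[k] M)) *
        rex P F + Fintype.card (M ≃ₐ[k] M) *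
          ∑ x : Γ, rdel Q (Q.inertia (M ≃ₐ[k] M) ⊓ (MulAut.conj x • H).comap ρ) =
      Nat.card Γ * (Nat.card (Q.inertia (M ≃ₐ[k] M)) * rex P M) := by
    intro ρ F hρ hF
    rw [← rd_formula P Q hQ F, hF]
    have h1 : ∑ σ : M ≃ₐ[k] M, rdel Q (Q.inertia (M ≃ₐ[k] M) ⊓ MulAut.conj σ • H.comap ρ) =
        ∑ σ : M ≃ₐ[k] M, (fun x : Γ => rdel Q (Q.inertia (M ≃ₐ[k] M) ⊓
          (MulAut.conj x • H).comap ρ)) (ρ σ) := by
      refine Finset.sum_congr rfl fun σ _ => ?_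
      rw [gd_comap_conj]
    rw [h1, ← gd_sum_comp ρ hρ, mul_add, Nat.card_eq_fintype_card (α := Γ)]
    congr 1
    rw [← gd_card_comap ρ hρ H, Nat.card_eq_fintype_card (α := Γ)]
    ring
  have k1 := key ρ F hρ hF
  have k2 := key ρ' F' hρ' hF'
  have h2 : ∑ x : Γ, rdel Q (Q.inertia (M ≃ₐ[k] M) ⊓ (MulAut.conj x • H).comap ρ) =
      ∑ x : Γ, rdel Q (Q.inertia (M ≃ₐ[k] M) ⊓ (MulAut.conj x • H).comap ρ') := by
    rw [← Equiv.sum_comp (Equiv.mulLeft c)
      (fun x : Γ => rdel Q (Q.inertia (M ≃ₐ[k] M) ⊓ (MulAut.conj x • H).comap ρ))]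
    refine Finset.sum_congr rfl fun x _ => ?_
    congr 1
    ext s
    rw [Subgroup.mem_inf, Subgroup.mem_inf]
    refine and_congr_right fun hs => ?_
    rw [Subgroup.mem_comap, Subgroup.mem_comap, h s hs,
      Subgroup.mem_pointwise_smul_iff_inv_smul_mem, Subgroup.mem_pointwise_smul_iff_inv_smul_mem]
    have e : (MulAut.conj (Equiv.mulLeft c x))⁻¹ • (c * ρ' s * c⁻¹) =
        (MulAut.conj x)⁻¹ • ρ' s := by
      rw [MulAut.smul_def, MulAut.smul_def, Equiv.coe_mulLeft, ← map_inv, ← map_inv,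
        MulAut.conj_apply, MulAut.conj_apply]
      group
    rw [e]
  rw [h2] at k1
  have k3 := k1.trans k2.symm
  have k4 := Nat.add_right_cancel k3
  refine Nat.eq_of_mul_eq_mul_left ?_ k4
  exact Nat.mul_pos (Nat.mul_pos Nat.card_pos Nat.card_pos) Nat.card_pos

end

end Pool.Agent.H98.MF
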