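import Pool.Agent.H98.MF.D.Defs
import Pool.Agent.H98.MF.L.Top
import Pool.Agent.H98.MF.L.ChiB

/-!
# Project MK4, block D: universal tame generators at `P` (compactness)
-/

set_option autoImplicit false
set_option linter.unusedSectionVars false

open scoped BigOperators Pointwise
open NumberField IsDedekindDomain

namespace Pool.Agent.H98.MF

open Pool.Agent.H67.MU (vexp)
open Pool.Agent.H98.ML (norb)

section

variable {k : Type} [Field k] [NumberField k]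

/-- the pairs good for `U` -/
def d8_C (P : HeightOneSpectrum (𝓞 k)) (U : Subgroup (Gm k)) : Set (Gm k × Gm k) :=
  {x | x.1 ∈ Dec P ∧ x.2 ∈ Dec P ∧ x.2 * x.1 * x.2⁻¹ * (x.1 ^ Ideal.absNorm P.asIdeal)⁻¹ ∈ U ∧
      (∀ W : Subgroup (Gm k), U ≤ W → rexp P (fld k W) + norb W x.1 = W.index) ∧
      (∀ a : k, a ≠ 0 → Even (ord P a) → (∀ σ ∈ U, chi a σ = 0) →
        chi a x.1 = 0 ∧ chi a x.2 = qr a P) ∧
      ∀ a : k, Odd (ord P a) → (∀ σ ∈ U, chi a σ = 0) → chi a x.1 = 1}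

theorem d8_mono (P : HeightOneSpectrum (𝓞 k)) {U U' : Subgroup (Gm k)} (h : U' ≤ U) :
    d8_C P U' ⊆ d8_C P U := by
  rintro x ⟨h5, h6, h1, h2, h3, h4⟩
  refine ⟨h5, h6, h h1, fun W hW => h2 W (h.trans hW),
    fun a ha hev hU => h3 a ha hev fun σ hσ => hU σ (h hσ),
    fun a ha hU => h4 a ha fun σ hσ => hU σ (h hσ)⟩

theorem d8_chi {U : Subgroup (Gm k)} (d : k) (hU : ∀ σ ∈ U, chi d σ = 0) {a b : Gm k}
    (h : b⁻¹ * a ∈ U) : chi d a = chi d b := by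
  have h1 : a = b * (b⁻¹ * a) := by group
  rw [h1, chi_hom, hU _ h, add_zero]

theorem d8_smul {G : Type} [Group G] {U W : Subgroup G} [hn : U.Normal] (hUW : U ≤ W) {a b : G}
    (h : b⁻¹ * a ∈ U) (x : G ⧸ W) : a • x = b • x := by
  induction x using QuotientGroup.induction_on with
  | H g =>
    change ((a * g : G) : G ⧸ W) = ((b * g : G) : G ⧸ W)
    symm
    rw [QuotientGroup.eq]
    have h1 : (b * g)⁻¹ * (a * g) = g⁻¹ * (b⁻¹ * a) * g⁻¹⁻¹ := by group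
    rw [h1]
    exact hUW (hn.conj_mem _ h g⁻¹)

theorem d8_zpow {G : Type} [Group G] {U W : Subgroup G} [hn : U.Normal] (hUW : U ≤ W) {a b : G}
    (h : b⁻¹ * a ∈ U) (n : ℤ) (x : G ⧸ W) : a ^ n • x = b ^ n • x := by
  have h1 : MulAction.toPermHom G (G ⧸ W) a = MulAction.toPermHom G (G ⧸ W) b := by
    ext y
    exact d8_smul hUW h y
  have h2 : MulAction.toPermHom G (G ⧸ W) (a ^ n) =
      MulAction.toPermHom G (G ⧸ W) (b ^ n) := by
    rw [map_zpow, map_zpow, h1]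
  exact congrArg (fun f : Equiv.Perm (G ⧸ W) => f x) h2

theorem d8_orbit {G : Type} [Group G] {U W : Subgroup G} [hn : U.Normal] (hUW : U ≤ W) {a b : G}
    (h : b⁻¹ * a ∈ U) (x y : G ⧸ W) :
    (MulAction.orbitRel (Subgroup.zpowers a) (G ⧸ W)) x y ↔
      (MulAction.orbitRel (Subgroup.zpowers b) (G ⧸ W)) x y := by
  rw [MulAction.orbitRel_apply, MulAction.orbitRel_apply]
  constructor
  · rintro ⟨⟨_, n, rfl⟩, h1⟩
    refine ⟨⟨b ^ n, n, rfl⟩, ?_⟩
    rw [← h1]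
    exact (d8_zpow hUW h n y).symm
  · rintro ⟨⟨_, n, rfl⟩, h1⟩
    refine ⟨⟨a ^ n, n, rfl⟩, ?_⟩
    rw [← h1]
    exact d8_zpow hUW h n y

theorem d8_norb {G : Type} [Group G] {U W : Subgroup G} [hn : U.Normal] (hUW : U ≤ W) {a b : G}
    (h : b⁻¹ * a ∈ U) : norb W a = norb W b := by
  unfold norb
  apply Nat.card_congr
  exact Quotient.congr (Equiv.refl _) fun x y => d8_orbit hUW h x y

theorem d8_inv (P : HeightOneSpectrum (𝓞 k)) {U : Subgroup (Gm k)} [hn : U.Normal]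
    {x y : Gm k × Gm k} (hx : x ∈ d8_C P U) (h1 : x.1⁻¹ * y.1 ∈ U) (h2 : x.2⁻¹ * y.2 ∈ U)
    (hy1 : y.1 ∈ Dec P) (hy2 : y.2 ∈ Dec P) : y ∈ d8_C P U := by
  obtain ⟨_, _, hr, hd, hc, he⟩ := hx
  refine ⟨hy1, hy2, ?_, ?_, ?_, ?_⟩
  · have e1 : ((x.1 : Gm k) : Gm k ⧸ U) = (y.1 : Gm k ⧸ U) := QuotientGroup.eq.mpr h1
    have e2 : ((x.2 : Gm k) : Gm k ⧸ U) = (y.2 : Gm k ⧸ U) := QuotientGroup.eq.mpr h2
    rw [← QuotientGroup.eq_one_iff] at hr ⊢
    rw [← hr]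
    simp only [QuotientGroup.mk_mul, QuotientGroup.mk_inv, QuotientGroup.mk_pow, e1, e2]
  · intro W hW
    rw [d8_norb hW h1]
    exact hd W hW
  · intro d hd1 hd2 hd3
    rw [d8_chi d hd3 h1, d8_chi d hd3 h2]
    exact hc d hd1 hd2 hd3
  · intro a ha hU
    rw [d8_chi _ hU h1]
    exact he a ha hU

theorem d8_closed (P : HeightOneSpectrum (𝓞 k)) {U : Subgroup (Gm k)} [hn : U.Normal]
    (hU : IsOpen (U : Set (Gm k))) : IsClosed (d8_C P U) := by
  rw [← isOpen_compl_iff, isOpen_iff_mem_nhds]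
  intro x hx
  by_cases hxD : x.1 ∈ Dec P ∧ x.2 ∈ Dec P
  · have h1 : IsOpen {y : Gm k × Gm k | x.1⁻¹ * y.1 ∈ U ∧ x.2⁻¹ * y.2 ∈ U} := by
      have ha : IsOpen ((fun y : Gm k × Gm k => x.1⁻¹ * y.1) ⁻¹' (U : Set (Gm k))) :=
        hU.preimage (continuous_const.mul continuous_fst)
      have hb : IsOpen ((fun y : Gm k × Gm k => x.2⁻¹ * y.2) ⁻¹' (U : Set (Gm k))) :=
        hU.preimage (continuous_const.mul continuous_snd)
      exact ha.inter hb
    refine Filter.mem_of_superset (h1.mem_nhds ?_) ?_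
    · refine ⟨?_, ?_⟩
      · rw [inv_mul_cancel]
        exact one_mem _
      · rw [inv_mul_cancel]
        exact one_mem _
    · rintro y ⟨ha, hb⟩ hy
      refine hx (d8_inv P hy ?_ ?_ hxD.1 hxD.2)
      · have := U.inv_mem ha
        rwa [mul_inv_rev, inv_inv] at this
      · have := U.inv_mem hb
        rwa [mul_inv_rev, inv_inv] at this
  · have hcl : IsClosed {y : Gm k × Gm k | y.1 ∈ Dec P ∧ y.2 ∈ Dec P} := by
      have ha : IsClosed ((fun y : Gm k × Gm k => y.1) ⁻¹' (Dec P : Set (Gm k))) :=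
        (dec_closed P).preimage continuous_fst
      have hb : IsClosed ((fun y : Gm k × Gm k => y.2) ⁻¹' (Dec P : Set (Gm k))) :=
        (dec_closed P).preimage continuous_snd
      exact ha.inter hb
    refine Filter.mem_of_superset (hcl.isOpen_compl.mem_nhds hxD) ?_
    intro y hy hyC
    exact hy ⟨hyC.1, hyC.2.1⟩

variable (k) in
/-- the index set -/
def D8I : Type := {U : Subgroup (Gm k) // U.Normal ∧ IsOpen (U : Set (Gm k)) ∧ ∃ j, U.index = 2 ^ j}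

theorem d8_inf (U V : D8I k) : ∃ T : D8I k, T.1 ≤ U.1 ∧ T.1 ≤ V.1 := by
  obtain ⟨U, hU1, hU2, a, hU3⟩ := U
  obtain ⟨V, hV1, hV2, b, hV3⟩ := V
  refine ⟨⟨U ⊓ V, inferInstance, ?_, ?_⟩, inf_le_left, inf_le_right⟩
  · rw [Subgroup.coe_inf]
    exact hU2.inter hV2
  · have h1 : (U ⊓ V).relIndex U * U.index = (U ⊓ V).index :=
      Subgroup.relIndex_mul_index inf_le_left
    have h2 : (U ⊓ V).relIndex U ∣ 2 ^ b := by
      rw [Subgroup.inf_relIndex_left, ← hV3]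
      exact Subgroup.relIndex_dvd_index_of_normal V U
    obtain ⟨c, _, hc⟩ := (Nat.dvd_prime_pow Nat.prime_two).mp h2
    exact ⟨c + a, by rw [← h1, hc, hU3, pow_add]⟩

/-- the kernel of a quadratic character -/
noncomputable def d8_ker (d : k) : Subgroup (Gm k) where
  carrier := {σ | chi d σ = 0}
  one_mem' := chi_one d
  mul_mem' := by
    intro a b ha hb
    change chi d (a * b) = 0
    rw [chi_hom, show chi d a = 0 from ha, show chi d b = 0 from hb, add_zero]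
  inv_mem' := by
    intro a ha
    change chi d a⁻¹ = 0
    rw [chi_inv]
    exact ha

theorem d8_mem_ker (d : k) (σ : Gm k) : σ ∈ d8_ker d ↔ chi d σ = 0 := Iff.rfl

instance d8_ker_normal (d : k) : (d8_ker d).Normal := by
  constructor
  intro a ha g
  rw [d8_mem_ker] at ha ⊢
  have h1 := chi_hom d g g⁻¹
  rw [mul_inv_cancel] at h1
  have h0 : chi d (1 : Gm k) = 0 := chi_one d
  rw [h0] at h1
  rw [chi_hom, chi_hom, ha, add_zero, ← h1]

theorem d8_ker_open (d : k) : IsOpen (d8_ker d : Set (Gm k)) :=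
  (chi_lc d).isOpen_fiber 0

theorem d8_ker_index (d : k) : ∃ j, (d8_ker d).index = 2 ^ j := by
  by_cases h : ∀ σ : Gm k, chi d σ = 0
  · refine ⟨0, ?_⟩
    rw [pow_zero, Subgroup.index_eq_one, eq_top_iff]
    intro σ _
    exact h σ
  · push Not at h
    obtain ⟨σ, hσ⟩ := h
    refine ⟨1, ?_⟩
    rw [pow_one, Subgroup.index_eq_two_iff]
    refine ⟨σ, fun b => ?_⟩
    rw [d8_mem_ker, d8_mem_ker, chi_hom]
    revert hσ
    generalize chi d σ = s
    generalize chi d b = t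
    revert s t
    decide

/-- the kernel as an index -/
noncomputable def d8_kI (d : k) : D8I k :=
  ⟨d8_ker d, d8_ker_normal d, d8_ker_open d, d8_ker_index d⟩

theorem exists_tauK_of (P : HeightOneSpectrum (𝓞 k))
    (hloc : ∀ (U : Subgroup (Gm k)) [U.Normal], IsOpen (U : Set (Gm k)) → ∀ j : ℕ,
      U.index = 2 ^ j →
      ∃ τ φ : Gm k, τ ∈ Dec P ∧ φ ∈ Dec P ∧ φ * τ * φ⁻¹ * (τ ^ Ideal.absNorm P.asIdeal)⁻¹ ∈ U ∧
      (∀ W : Subgroup (Gm k), U ≤ W → rexp P (fld k W) + norb W τ = W.index) ∧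
      (∀ a : k, a ≠ 0 → Even (ord P a) → (∀ σ ∈ U, chi a σ = 0) →
        chi a τ = 0 ∧ chi a φ = qr a P) ∧
      ∀ a : k, Odd (ord P a) → (∀ σ ∈ U, chi a σ = 0) → chi a τ = 1) :
    ∃ τ φ : Gm k, IsTauK P τ φ := by
  have : CompactSpace (Gm k) := gm_compact
  have : Nonempty (D8I k) := ⟨⟨⊤, inferInstance, isOpen_univ, 0, by simp⟩⟩
  have key : (⋂ i : D8I k, d8_C P i.1).Nonempty := by
    refine IsCompact.nonempty_iInter_of_directed_nonempty_isCompact_isClosed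
      (fun i : D8I k => d8_C P i.1) ?_ ?_ ?_ ?_
    · intro U V
      obtain ⟨T, h1, h2⟩ := d8_inf U V
      exact ⟨T, d8_mono P h1, d8_mono P h2⟩
    · rintro ⟨U, hU1, hU2, j, hj⟩
      obtain ⟨τ, φ, h⟩ := @hloc U hU1 hU2 j hj
      exact ⟨(τ, φ), h⟩
    · rintro ⟨U, hU1, hU2, j, hj⟩
      exact (d8_closed P hU2).isCompact
    · rintro ⟨U, hU1, hU2, j, hj⟩
      exact d8_closed P hU2
  obtain ⟨⟨τ, φ⟩, hx⟩ := key
  rw [Set.mem_iInter] at hx
  refine ⟨τ, φ, ⟨(hx (d8_kI 1)).1, (hx (d8_kI 1)).2.1, ?_, ?_, ?_, ?_⟩⟩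
  · intro U hU1 hU2 hk
    exact (hx ⟨U, hU1, hU2, hk⟩).2.2.1
  · intro U hU1 hU2 hk W hW
    exact (hx ⟨U, hU1, hU2, hk⟩).2.2.2.1 W hW
  · intro a ha hev
    exact (hx (d8_kI a)).2.2.2.2.1 a ha hev fun σ hσ => hσ
  · intro a ha
    exact (hx (d8_kI a)).2.2.2.2.2 a ha fun σ hσ => hσ

end

end Pool.Agent.H98.MF
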