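import Pool.Agent.H98.MF.D.Fin
import Pool.Agent.H98.MF.D.TauX

/-!
# Project MK4, block D, file Tau: universal tame generators at `P`
-/

set_option autoImplicit false

open scoped BigOperators Pointwise
open NumberField IsDedekindDomain

namespace Pool.Agent.H98.MF

section

variable {k : Type} [Field k] [NumberField k]

/-- there are a universal tame generator and a Frobenius at `P` -/
theorem exists_tauK (P : HeightOneSpectrum (𝓞 k)) (h2 : ord P (2 : k) = 0) :
    ∃ τ φ : Gm k, IsTauK P τ φ :=
  exists_tauK_of P fun U hU1 hU2 j hj => @rd_fin k _ _ P h2 U hU1 hU2 j hj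

end

end Pool.Agent.H98.MF
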