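import Pool.Agent.H98.MF.D.Defs
import Pool.Agent.H67.MU.Disc
import Pool.Agent.H98.ML.GDA

/-!
# Project MK4, block D: transport of the different, norms of ideals in Galois extensions
(helper33)
-/

set_option autoImplicit false

open scoped BigOperators Pointwise nonZeroDivisors
open NumberField IsDedekindDomain

namespace Pool.Agent.H98.MF

open Pool.Agent.H67.MU
open Pool.Agent.H98.MK
open Pool.Agent.H98.ML (norb gd_mem_diff)

section

variable {k : Type} [Field k] [NumberField k]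
variable {M : Type} [Field M] [NumberField M] [Algebra k M]

theorem rd_coe_smul (σ : M ≃ₐ[k] M) (x : 𝓞 M) : ((σ • x : 𝓞 M) : M) = σ (x : M) := rfl

theorem rd_trace (σ : M ≃ₐ[k] M) (F : IntermediateField k M) (w : M) :
    Algebra.trace F M (σ.symm w) = (IntermediateField.intermediateFieldMap σ F).symm
      (Algebra.trace (F.map (σ : M →ₐ[k] M)) M w) := by
  have h := Algebra.trace_eq_of_equiv_equiv
    (IntermediateField.intermediateFieldMap σ F).toRingEquiv σ.toRingEquiv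
    (by ext x; rfl) (σ.symm w)
  rw [h]
  have h2 : σ.toRingEquiv (σ.symm w) = w := AlgEquiv.apply_symm_apply σ w
  rw [h2]
  rfl

theorem rd_smul_mem (σ : M ≃ₐ[k] M) (F F' : IntermediateField k M)
    (hF : F.map (σ : M →ₐ[k] M) = F') {x : 𝓞 M}
    (hx : x ∈ differentIdeal (𝓞 F) (𝓞 M)) :
    σ • x ∈ differentIdeal (𝓞 F') (𝓞 M) := by
  subst hF
  rw [gd_mem_diff] at hx ⊢
  intro y hy
  obtain ⟨z, hz⟩ := hx (σ.symm y) fun b => by
    obtain ⟨t, ht⟩ := hy (σ • b)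
    rw [rd_coe_smul] at ht
    have h2 := rd_trace σ F (y * σ (b : M))
    rw [map_mul, AlgEquiv.symm_apply_apply, ← ht] at h2
    rw [h2]
    have hint : IsIntegral ℤ ((IntermediateField.intermediateFieldMap σ F).symm
        (algebraMap (𝓞 (F.map (σ : M →ₐ[k] M))) (F.map (σ : M →ₐ[k] M)) t)) :=
      map_isIntegral_int
        (IntermediateField.intermediateFieldMap σ F).symm (RingOfIntegers.isIntegral_coe t)
    exact ⟨⟨_, hint⟩, rfl⟩
  refine ⟨σ • z, ?_⟩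
  rw [rd_coe_smul, rd_coe_smul, ← hz, map_mul, AlgEquiv.apply_symm_apply]

theorem rd_smul_ne_bot (σ : M ≃ₐ[k] M) {Q : Ideal (𝓞 M)} (hQ0 : Q ≠ ⊥) : σ • Q ≠ ⊥ := by
  intro h
  apply hQ0
  rw [eq_bot_iff]
  intro x hx
  have h1 := Ideal.smul_mem_pointwise_smul σ x Q hx
  rw [h, Ideal.mem_bot, smul_eq_zero_iff_eq] at h1
  exact h1

theorem rd_map_inv (σ : M ≃ₐ[k] M) (F F' : IntermediateField k M)
    (hF : F.map (σ : M →ₐ[k] M) = F') :
    F'.map ((σ⁻¹ : M ≃ₐ[k] M) : M →ₐ[k] M) = F := by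
  rw [← hF, IntermediateField.map_map]
  have h5 : ((σ⁻¹ : M ≃ₐ[k] M) : M →ₐ[k] M).comp (σ : M →ₐ[k] M) = AlgHom.id k M := by
    ext y
    exact AlgEquiv.symm_apply_apply σ y
  rw [h5, IntermediateField.map_id]

theorem rd_vexp_le (σ : M ≃ₐ[k] M) (F F' : IntermediateField k M)
    (hF : F.map (σ : M →ₐ[k] M) = F') (Q : Ideal (𝓞 M))
    [hQ : Q.IsPrime] (hQ0 : Q ≠ ⊥) :
    vexp Q (differentIdeal (𝓞 F) (𝓞 M)) ≤
      vexp (σ • Q) (differentIdeal (𝓞 F') (𝓞 M)) := by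
  have hp : (σ • Q).IsPrime := inferInstance
  have hd1 : differentIdeal (𝓞 F) (𝓞 M) ≠ ⊥ := differentIdeal_ne_bot
  have hd2 : differentIdeal (𝓞 F') (𝓞 M) ≠ ⊥ := differentIdeal_ne_bot
  have h2 : Q ^ vexp Q (differentIdeal (𝓞 F) (𝓞 M)) ∣ differentIdeal (𝓞 F) (𝓞 M) :=
    (mu3_pow_dvd_iff hQ hQ0 hd1 _).2 le_rfl
  rw [← mu3_pow_dvd_iff hp (rd_smul_ne_bot σ hQ0) hd2, Ideal.dvd_iff_le, ← smul_pow']
  intro x hx
  apply Ideal.mem_pointwise_smul_iff_inv_smul_mem.2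
  exact Ideal.dvd_iff_le.1 h2 (rd_smul_mem σ⁻¹ F' F (rd_map_inv σ F F' hF) hx)

end

section

variable {k : Type} [Field k] [NumberField k]
variable {M : Type} [Field M] [NumberField M] [Algebra k M] [IsGalois k M]

omit [IsGalois k M] in
theorem rd_transport (σ : M ≃ₐ[k] M) (F F' : IntermediateField k M)
    (hF : F.map (σ : M →ₐ[k] M) = F') (Q : Ideal (𝓞 M)) [Q.IsPrime] (hQ : Q ≠ ⊥) :
    vexp (σ • Q) (differentIdeal (𝓞 F') (𝓞 M)) = vexp Q (differentIdeal (𝓞 F) (𝓞 M)) := by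
  refine le_antisymm ?_ (rd_vexp_le σ F F' hF Q hQ)
  have h1 := rd_vexp_le σ⁻¹ F' F (rd_map_inv σ F F' hF) (σ • Q) (rd_smul_ne_bot σ hQ)
  rwa [inv_smul_smul] at h1

theorem rd_norm (P : HeightOneSpectrum (𝓞 k)) (Q : Ideal (𝓞 M)) [Q.IsPrime]
    (hQ : Q.comap (algebraMap (𝓞 k) (𝓞 M)) = P.asIdeal) (A : Ideal (𝓞 M)) (hA : A ≠ ⊥) :
    vexp P.asIdeal (Ideal.relNorm (𝓞 k) A) * Nat.card (Q.inertia (M ≃ₐ[k] M)) =
      ∑ σ : M ≃ₐ[k] M, vexp (σ • Q) A := by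
  classical
  have hPp : P.asIdeal.IsPrime := P.isPrime
  have hPb : P.asIdeal ≠ ⊥ := P.ne_bot
  have hPm : P.asIdeal.IsMaximal := P.isMaximal
  have hover : Q.LiesOver P.asIdeal := ⟨hQ.symm⟩
  set T := IsDedekindDomain.primesOverFinset P.asIdeal (𝓞 M) with hT
  have hmemT : ∀ Q' : Ideal (𝓞 M), Q' ∈ T ↔ Q'.IsPrime ∧ Q'.LiesOver P.asIdeal :=
    fun Q' => IsDedekindDomain.mem_primesOverFinset_iff hPb (𝓞 M)
  have hdeg : ∀ Q' ∈ T, Q'.inertiaDeg (𝓞 k) = Q.inertiaDeg (𝓞 k) := by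
    intro Q' hQ'
    obtain ⟨h1, h2⟩ := (hmemT Q').1 hQ'
    exact Ideal.inertiaDeg_eq_of_isGaloisGroup P.asIdeal Q' Q (M ≃ₐ[k] M)
  have h1 := (mu1_vexp_relNorm_prod k M P.asIdeal hPb
    (UniqueFactorizationMonoid.normalizedFactors A) (fun Q' hQ' => by
      have h2 := UniqueFactorizationMonoid.prime_of_normalized_factor Q' hQ'
      exact ⟨Ideal.isPrime_of_prime h2, h2.ne_zero⟩)).2
  rw [Ideal.prod_normalizedFactors_eq_self hA] at h1
  have h2 : vexp P.asIdeal (Ideal.relNorm (𝓞 k) A) = Q.inertiaDeg (𝓞 k) * ∑ Q' ∈ T, vexp Q' A := by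
    rw [h1, Finset.mul_sum]
    refine Finset.sum_congr rfl fun Q' hQ' => ?_
    rw [hdeg Q' hQ']
    unfold vexp
    congr!
  have hstab := Ideal.card_stabilizer_eq_card_inertia_mul_finrank (G := M ≃ₐ[k] M)
    P.asIdeal Q
  have hmaps : ∀ σ ∈ (Finset.univ : Finset (M ≃ₐ[k] M)), σ • Q ∈ T := by
    intro σ _
    refine (hmemT _).2 ⟨inferInstance, ?_⟩
    infer_instance
  have hfib : ∀ Q' ∈ T, ∑ σ ∈ (Finset.univ : Finset (M ≃ₐ[k] M)).filter (fun σ => σ • Q = Q'),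
      vexp (σ • Q) A = Nat.card (MulAction.stabilizer (M ≃ₐ[k] M) Q) * vexp Q' A := by
    intro Q' hQ'
    have h1 : ∀ σ ∈ (Finset.univ : Finset (M ≃ₐ[k] M)).filter (fun σ => σ • Q = Q'),
        vexp (σ • Q) A = vexp Q' A := by
      intro σ hσ
      rw [(Finset.mem_filter.1 hσ).2]
    rw [Finset.sum_congr rfl h1, Finset.sum_const, smul_eq_mul]
    congr 1
    obtain ⟨hQ1, hQ2⟩ := (hmemT Q').1 hQ'
    obtain ⟨τ, hτ⟩ := Ideal.exists_smul_eq_of_isGaloisGroup P.asIdeal Q Q'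
      (M ≃ₐ[k] M)
    rw [← Nat.card_eq_finsetCard]
    refine Nat.card_congr ⟨fun σ => ⟨τ⁻¹ * σ.1, ?_⟩, fun σ => ⟨τ * σ.1, ?_⟩, ?_, ?_⟩
    · rw [MulAction.mem_stabilizer_iff, mul_smul, (Finset.mem_filter.1 σ.2).2, ← hτ,
        inv_smul_smul]
    · rw [Finset.mem_filter]
      refine ⟨Finset.mem_univ _, ?_⟩
      rw [mul_smul, MulAction.mem_stabilizer_iff.1 σ.2, hτ]
    · intro σ
      apply Subtype.ext
      exact mul_inv_cancel_left _ _
    · intro σ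
      apply Subtype.ext
      exact inv_mul_cancel_left _ _
  rw [← Finset.sum_fiberwise_of_maps_to hmaps, Finset.sum_congr rfl hfib, ← Finset.mul_sum,
    h2, hstab]
  ring

end

end Pool.Agent.H98.MF
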